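import Mathlib

/-!
# Iterated logarithms of counting functions
-/

set_option autoImplicit false

namespace Pool.Agent.Helper3.A9

open Filter Topology Real

lemma tendsto_ilog (m : ℕ) : Tendsto (fun x : ℝ => Real.log^[m] x) atTop atTop := by
  induction m with
  | zero => exact tendsto_id
  | succ m ih =>
    have h : (fun x : ℝ => Real.log^[m + 1] x) = Real.log ∘ (fun x : ℝ => Real.log^[m] x) := by
      funext x
      exact Function.iterate_succ_apply' _ _ _
    rw [h]
    exact Real.tendsto_log_atTop.comp ih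

/-- Order zero. -/
lemma order_zero {N : ℝ → ℝ} {c c' C C' : ℝ} (hc : 0 < c) (hc' : 0 < c') (hC : 0 < C)
    (hC' : 0 < C') (hlo : ∀ᶠ T in atTop, c * T ^ c' ≤ N T)
    (hup : ∀ᶠ T in atTop, N T ≤ C * T ^ C') :
    Tendsto (fun T : ℝ => Real.log^[2] (N T) / Real.log^[2 + 0] T) atTop (𝓝 1) := by
  have e : ∀ x : ℝ, Real.log^[2] x = Real.log (Real.log x) := fun x => rfl
  simp only [Nat.add_zero, e]
  have hℓ : Tendsto (fun T : ℝ => Real.log (Real.log T)) atTop atTop :=
    Real.tendsto_log_atTop.comp Real.tendsto_log_atTop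
  have hlow : Tendsto (fun T : ℝ => (Real.log (c' / 2) + Real.log (Real.log T)) /
      Real.log (Real.log T)) atTop (𝓝 1) := by
    have h1 : Tendsto (fun T : ℝ => Real.log (c' / 2) / Real.log (Real.log T) + 1) atTop
        (𝓝 (0 + 1)) := (hℓ.const_div_atTop _).add tendsto_const_nhds
    rw [zero_add] at h1
    refine h1.congr' ?_
    filter_upwards [hℓ.eventually_gt_atTop 0] with T hT
    field_simp
  have hupp : Tendsto (fun T : ℝ => (Real.log (2 * C') + Real.log (Real.log T)) /
      Real.log (Real.log T)) atTop (𝓝 1) := by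
    have h1 : Tendsto (fun T : ℝ => Real.log (2 * C') / Real.log (Real.log T) + 1) atTop
        (𝓝 (0 + 1)) := (hℓ.const_div_atTop _).add tendsto_const_nhds
    rw [zero_add] at h1
    refine h1.congr' ?_
    filter_upwards [hℓ.eventually_gt_atTop 0] with T hT
    field_simp
  have key : ∀ᶠ T : ℝ in atTop, 0 < Real.log (Real.log T) ∧
      Real.log (c' / 2) + Real.log (Real.log T) ≤ Real.log (Real.log (N T)) ∧
      Real.log (Real.log (N T)) ≤ Real.log (2 * C') + Real.log (Real.log T) := by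
    filter_upwards [hlo, hup, hℓ.eventually_gt_atTop 0, eventually_gt_atTop 1,
      Real.tendsto_log_atTop.eventually_ge_atTop (-Real.log c / (c' / 2)),
      Real.tendsto_log_atTop.eventually_ge_atTop (Real.log C / C'),
      Real.tendsto_log_atTop.eventually_gt_atTop 0] with T h1 h2 h3 h4 h5 h6 h7
    have hT0 : 0 < T := by linarith
    have hTc : 0 < T ^ c' := Real.rpow_pos_of_pos hT0 _
    have hN : 0 < N T := lt_of_lt_of_le (mul_pos hc hTc) h1
    have l1 : Real.log c + c' * Real.log T ≤ Real.log (N T) := by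
      have := Real.log_le_log (mul_pos hc hTc) h1
      rwa [Real.log_mul hc.ne' hTc.ne', Real.log_rpow hT0] at this
    have l2 : Real.log (N T) ≤ Real.log C + C' * Real.log T := by
      have := Real.log_le_log hN h2
      rwa [Real.log_mul hC.ne' (Real.rpow_pos_of_pos hT0 _).ne', Real.log_rpow hT0] at this
    have l3 : (c' / 2) * Real.log T ≤ Real.log (N T) := by
      rw [div_le_iff₀ (by positivity)] at h5
      nlinarith
    have l4 : Real.log (N T) ≤ (2 * C') * Real.log T := by
      rw [div_le_iff₀ (by positivity)] at h6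
      nlinarith
    have p1 : 0 < (c' / 2) * Real.log T := by positivity
    refine ⟨h3, ?_, ?_⟩
    · rw [← Real.log_mul (by positivity) h7.ne']
      exact Real.log_le_log p1 l3
    · rw [← Real.log_mul (by positivity) h7.ne']
      exact Real.log_le_log (lt_of_lt_of_le p1 l3) l4
  refine tendsto_of_tendsto_of_tendsto_of_le_of_le' hlow hupp ?_ ?_
  · filter_upwards [key] with T h
    exact div_le_div_of_nonneg_right h.2.1 h.1.le
  · filter_upwards [key] with T h
    exact div_le_div_of_nonneg_right h.2.2 h.1.le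

lemma ilog_ge {N : ℝ → ℝ} {c c' : ℝ} (hc : 0 < c) (hc' : 0 < c')
    (hlo : ∀ᶠ T in atTop, c * Real.log T ^ c' ≤ N T) (m : ℕ) :
    ∃ δ > 0, ∀ᶠ T in atTop, δ * Real.log^[m + 2] T ≤ Real.log^[m + 1] (N T) := by
  induction m with
  | zero =>
    refine ⟨c' / 2, by positivity, ?_⟩
    have e : ∀ x : ℝ, Real.log^[0 + 2] x = Real.log (Real.log x) := fun x => rfl
    have e' : ∀ x : ℝ, Real.log^[0 + 1] x = Real.log x := fun x => rfl
    simp only [e, e']
    have hℓ : Tendsto (fun T : ℝ => Real.log (Real.log T)) atTop atTop :=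
      Real.tendsto_log_atTop.comp Real.tendsto_log_atTop
    filter_upwards [hlo, hℓ.eventually_ge_atTop (-Real.log c / (c' / 2)),
      Real.tendsto_log_atTop.eventually_gt_atTop 0] with T h1 h2 h3
    have hTc : 0 < Real.log T ^ c' := Real.rpow_pos_of_pos h3 _
    have l1 : Real.log c + c' * Real.log (Real.log T) ≤ Real.log (N T) := by
      have := Real.log_le_log (mul_pos hc hTc) h1
      rwa [Real.log_mul hc.ne' hTc.ne', Real.log_rpow h3] at this
    rw [div_le_iff₀ (by positivity)] at h2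
    nlinarith
  | succ m ih =>
    obtain ⟨δ, hδ, h⟩ := ih
    refine ⟨1 / 2, by norm_num, ?_⟩
    filter_upwards [h, (tendsto_ilog (m + 2)).eventually_gt_atTop 0,
      (tendsto_ilog (m + 3)).eventually_ge_atTop (-2 * Real.log δ)] with T h1 h2 h3
    have e1 : Real.log^[m + 1 + 2] T = Real.log (Real.log^[m + 2] T) :=
      Function.iterate_succ_apply' _ _ _
    have e2 : Real.log^[m + 1 + 1] (N T) = Real.log (Real.log^[m + 1] (N T)) :=
      Function.iterate_succ_apply' _ _ _
    have e3 : Real.log^[m + 3] T = Real.log (Real.log^[m + 2] T) :=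
      Function.iterate_succ_apply' _ _ _
    rw [e1, e2]
    rw [e3] at h3
    have h4 := Real.log_le_log (mul_pos hδ h2) h1
    rw [Real.log_mul hδ.ne' h2.ne'] at h4
    linarith

lemma ilog_le (j : ℕ) : ∀ᶠ y : ℝ in atTop, Real.log^[j + 1] y ≤ Real.log y := by
  induction j with
  | zero => exact Eventually.of_forall fun y => le_rfl
  | succ j ih =>
    filter_upwards [ih, (tendsto_ilog (j + 1)).eventually_gt_atTop 0] with y h1 h2
    have e1 : Real.log^[j + 1 + 1] y = Real.log (Real.log^[j + 1] y) :=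
      Function.iterate_succ_apply' _ _ _
    rw [e1]
    have := Real.log_le_sub_one_of_pos h2
    linarith

/-- Order at most one. -/
lemma order_le_one {N : ℝ → ℝ} {c c' : ℝ} (hc : 0 < c) (hc' : 0 < c')
    (hlo : ∀ᶠ T in atTop, c * Real.log T ^ c' ≤ N T) (m a : ℕ) (hm : 1 ≤ m)
    (h : Tendsto (fun T : ℝ => Real.log^[m] (N T) / Real.log^[m + a] T) atTop (𝓝 1)) :
    a ≤ 1 := by
  by_contra hcon
  push Not at hcon
  obtain ⟨m, rfl⟩ := Nat.exists_eq_add_of_le' hm
  obtain ⟨a, rfl⟩ := Nat.exists_eq_add_of_le' (show 2 ≤ a from hcon)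
  obtain ⟨δ, hδ, h1⟩ := ilog_ge hc hc' hlo m
  have hy := tendsto_ilog (m + 2)
  have h2 : ∀ᶠ y : ℝ in atTop, 2 * Real.log y ≤ δ * y := by
    have := (Real.isLittleO_log_id_atTop.def (show 0 < δ / 2 by positivity))
    filter_upwards [this, eventually_ge_atTop 0, eventually_ge_atTop 1] with y h3 h4 h5
    simp only [norm_eq_abs, id] at h3
    rw [abs_of_nonneg (Real.log_nonneg h5), abs_of_nonneg h4] at h3
    linarith
  have h3 : ∀ᶠ T : ℝ in atTop, Real.log^[m + 1] (N T) / Real.log^[m + 1 + (a + 2)] T < 2 :=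
    h.eventually (gt_mem_nhds (by norm_num))
  have h4 : ∀ᶠ T : ℝ in atTop, (2 : ℝ) ≤ Real.log^[m + 1] (N T) / Real.log^[m + 1 + (a + 2)] T := by
    filter_upwards [h1, hy.eventually h2, hy.eventually (ilog_le a),
      (tendsto_ilog (m + 1 + (a + 2))).eventually_gt_atTop 0] with T g1 g2 g3 g4
    rw [le_div_iff₀ g4]
    have e1 : Real.log^[m + 1 + (a + 2)] T = Real.log^[a + 1] (Real.log^[m + 2] T) := by
      rw [← Function.iterate_add_apply]
      congr 1
      ring_nf
    rw [e1]
    linarith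
  obtain ⟨T, hT1, hT2⟩ := (h3.and h4).exists
  linarith

lemma not_order_top {N : ℝ → ℝ} {c c' : ℝ} (hc : 0 < c) (hc' : 0 < c')
    (hlo : ∀ᶠ T in atTop, c * Real.log T ^ c' ≤ N T) (m : ℕ) (hm : 1 ≤ m)
    (h : Tendsto (fun T : ℝ => Real.log^[m] (N T) / Real.log^[m + 1] T) atTop (𝓝 0)) :
    False := by
  obtain ⟨m, rfl⟩ := Nat.exists_eq_add_of_le' hm
  obtain ⟨δ, hδ, h1⟩ := ilog_ge hc hc' hlo m
  have h3 := h.eventually (gt_mem_nhds hδ)
  have h4 : ∀ᶠ T : ℝ in atTop, δ ≤ Real.log^[m + 1] (N T) / Real.log^[m + 1 + 1] T := by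
    filter_upwards [h1, (tendsto_ilog (m + 1 + 1)).eventually_gt_atTop 0] with T g1 g2
    rw [le_div_iff₀ g2]
    exact g1
  obtain ⟨T, hT1, hT2⟩ := (h3.and h4).exists
  linarith

end Pool.Agent.Helper3.A9
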