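import Mathlib

/-!
# Crude height bounds for polynomial maps
-/

set_option autoImplicit false

namespace Pool.Agent.Helper3.A9

open Height

variable {F : Type*} [Field F] [AdmissibleAbsValues F]

lemma tuple_le {n : ℕ} (v : Fin (n + 1) → F) : mulHeight v ≤ ∏ i, mulHeight₁ (v i) := by
  have hx : ∀ a : Fin (n + 1), (fun a : Fin (n + 1) => ![v a, 1]) a ≠ 0 := by
    intro a h
    have := congrFun h 1
    simp at this
  have h1 := mulHeight_fun_prod_eq (x := fun a : Fin (n + 1) => ![v a, 1]) hx
  have h2 : mulHeight v ≤ mulHeight (fun I : (a : Fin (n + 1)) → Fin 2 =>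
      ∏ a, (fun a : Fin (n + 1) => ![v a, 1]) a (I a)) := by
    have h3 := mulHeight_comp_le (fun (i a : Fin (n + 1)) => if a = i then (0 : Fin 2) else 1)
      (fun I : (a : Fin (n + 1)) → Fin 2 => ∏ a, (fun a : Fin (n + 1) => ![v a, 1]) a (I a))
    refine le_trans (le_of_eq ?_) h3
    congr 1
    funext i
    simp only [Function.comp_apply]
    rw [Finset.prod_eq_single i]
    · simp
    · intro b _ hb
      simp [hb]
    · simp
  rw [h1] at h2
  refine h2.trans (le_of_eq (Finset.prod_congr rfl fun a _ => ?_))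
  rw [mulHeight₁_eq_mulHeight]

lemma poly_le (p : Polynomial F) : ∃ (C : ℝ) (D : ℕ), 1 ≤ C ∧
    ∀ x : F, mulHeight₁ (p.eval x) ≤ C * mulHeight₁ x ^ D := by
  induction p using Polynomial.induction_on' with
  | add p q hp hq =>
    obtain ⟨C, D, hC, h⟩ := hp
    obtain ⟨C', D', hC', h'⟩ := hq
    refine ⟨2 ^ totalWeight F * C * C', D + D', ?_, fun x => ?_⟩
    · have h2 : (1 : ℝ) ≤ 2 ^ totalWeight F := one_le_pow₀ (by norm_num)
      have h3 : (1 : ℝ) ≤ 2 ^ totalWeight F * C := one_le_mul_of_one_le_of_one_le h2 hC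
      exact one_le_mul_of_one_le_of_one_le h3 hC'
    · rw [Polynomial.eval_add]
      refine (mulHeight₁_add_le _ _).trans ?_
      have hx := one_le_mulHeight₁ (p.eval x)
      have hx' := one_le_mulHeight₁ (q.eval x)
      calc 2 ^ totalWeight F * mulHeight₁ (p.eval x) * mulHeight₁ (q.eval x)
          ≤ 2 ^ totalWeight F * (C * mulHeight₁ x ^ D) * (C' * mulHeight₁ x ^ D') := by
            gcongr
            · exact h x
            · exact h' x
        _ = _ := by rw [pow_add]; ring
  | monomial k a =>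
    refine ⟨mulHeight₁ a, k, one_le_mulHeight₁ a, fun x => ?_⟩
    rw [Polynomial.eval_monomial]
    refine (mulHeight₁_mul_le _ _).trans ?_
    rw [mulHeight₁_pow]

/-- Height of a tuple of values `p i (x) + q i (x) * y`. -/
lemma tuple_poly_le {n : ℕ} (p q : Fin (n + 1) → Polynomial F) :
    ∃ (C : ℝ) (D : ℕ), 1 ≤ C ∧ ∀ x y : F,
      mulHeight (fun i => (p i).eval x + (q i).eval x * y) ≤
        C * (mulHeight₁ x * mulHeight₁ y) ^ D := by
  have key : ∀ i, ∃ (C : ℝ) (D : ℕ), 1 ≤ C ∧ ∀ x y : F,
      mulHeight₁ ((p i).eval x + (q i).eval x * y) ≤ C * (mulHeight₁ x * mulHeight₁ y) ^ D := by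
    intro i
    obtain ⟨C, D, hC, h⟩ := poly_le (p i)
    obtain ⟨C', D', hC', h'⟩ := poly_le (q i)
    refine ⟨2 ^ totalWeight F * C * C', D + D' + 1, ?_, fun x y => ?_⟩
    · have h2 : (1 : ℝ) ≤ 2 ^ totalWeight F := one_le_pow₀ (by norm_num)
      have h3 : (1 : ℝ) ≤ 2 ^ totalWeight F * C := one_le_mul_of_one_le_of_one_le h2 hC
      exact one_le_mul_of_one_le_of_one_le h3 hC'
    · refine (mulHeight₁_add_le _ _).trans ?_
      have hx := one_le_mulHeight₁ x
      have hy := one_le_mulHeight₁ y
      have h1 := one_le_mulHeight₁ ((p i).eval x)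
      have h2 := one_le_mulHeight₁ ((q i).eval x)
      have e1 : mulHeight₁ ((q i).eval x * y) ≤ C' * mulHeight₁ x ^ D' * mulHeight₁ y :=
        (mulHeight₁_mul_le _ _).trans (by gcongr; exact h' x)
      calc 2 ^ totalWeight F * mulHeight₁ ((p i).eval x) * mulHeight₁ ((q i).eval x * y)
          ≤ 2 ^ totalWeight F * (C * mulHeight₁ x ^ D) * (C' * mulHeight₁ x ^ D' * mulHeight₁ y) := by
            gcongr
            exact h x
        _ = 2 ^ totalWeight F * C * C' * (mulHeight₁ x ^ (D + D') * mulHeight₁ y) := by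
            rw [pow_add]; ring
        _ ≤ 2 ^ totalWeight F * C * C' * (mulHeight₁ x * mulHeight₁ y) ^ (D + D' + 1) := by
            have e2 : mulHeight₁ x ^ (D + D') ≤ mulHeight₁ x ^ (D + D' + 1) :=
              pow_le_pow_right₀ hx (by omega)
            have e3 : mulHeight₁ y ≤ mulHeight₁ y ^ (D + D' + 1) :=
              le_self_pow₀ hy (by omega)
            rw [mul_pow]
            gcongr
  choose C D hC h using key
  refine ⟨∏ i, C i, ∑ i, D i, ?_, fun x y => ?_⟩
  · exact Finset.one_le_prod (s := Finset.univ) (f := C) (fun i _ => hC i)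
  · refine (tuple_le _).trans ?_
    calc ∏ i, mulHeight₁ ((p i).eval x + (q i).eval x * y)
        ≤ ∏ i, (C i * (mulHeight₁ x * mulHeight₁ y) ^ D i) := by
          apply Finset.prod_le_prod
          · intro i _
            have := one_le_mulHeight₁ ((p i).eval x + (q i).eval x * y)
            linarith
          · intro i _
            exact h i x y
      _ = _ := by rw [Finset.prod_mul_distrib, Finset.prod_pow_eq_pow_sum]

lemma natCast_le (k : ℕ) (hk : k ≠ 0) : mulHeight₁ (k : F) ≤ (k : ℝ) ^ totalWeight F := by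
  have h := mulHeight₁_sum_le (K := F) (s := Finset.range k) (by simpa using hk) (fun _ => (1 : F))
  simpa using h

end Pool.Agent.Helper3.A9
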