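import Pool.Agent.Helper3.A9.TameInst
import Pool.Agent.Helper3.A9.Ht
import Pool.Agent.Helper3.A9.Asy

/-!
# Lower bounds for the counting function
-/

set_option autoImplicit false

namespace Pool.Agent.Helper3.A9

open Filter Topology

lemma seq_lower {N : ℝ → ℝ} {Z : ℕ} (hZ : 0 < Z) {C E : ℝ} (hC : 0 < C) (hE : 0 < E)
    (h : ∀ T : ℝ, ∀ M : ℕ, (∀ k < M, C * ((k : ℝ) + 1) ^ E ≤ T) → (M : ℝ) ≤ Z + Z * N T) :
    ∃ c > 0, ∀ᶠ T in atTop, c * T ^ (1 / E) ≤ N T := by
  have hZ' : (0 : ℝ) < Z := by exact_mod_cast hZ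
  refine ⟨(1 / C) ^ (1 / E) / (2 * Z), by positivity, ?_⟩
  have h1 : Tendsto (fun T : ℝ => (T / C) ^ (1 / E)) atTop atTop :=
    (tendsto_rpow_atTop (by positivity)).comp (tendsto_id.atTop_div_const hC)
  filter_upwards [h1.eventually_ge_atTop (2 * (1 + Z)), eventually_gt_atTop 0] with T hT hT0
  have hTC : 0 < T / C := by positivity
  have h2 := h T ⌊(T / C) ^ (1 / E)⌋₊ ?_
  · have h3 := Nat.lt_floor_add_one ((T / C) ^ (1 / E))
    have h4 : (T / C) ^ (1 / E) = (1 / C) ^ (1 / E) * T ^ (1 / E) := by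
      rw [← Real.mul_rpow (by positivity) hT0.le]
      congr 1
      ring
    have h5 : (1 / C) ^ (1 / E) / (2 * Z) * T ^ (1 / E) = (T / C) ^ (1 / E) / (2 * Z) := by
      rw [h4]; ring
    rw [h5, div_le_iff₀ (by positivity)]
    nlinarith
  · intro k hk
    have h3 : (k : ℝ) + 1 ≤ (T / C) ^ (1 / E) := by
      have h4 : ((k + 1 : ℕ) : ℝ) ≤ ⌊(T / C) ^ (1 / E)⌋₊ := by exact_mod_cast hk
      push_cast at h4
      exact h4.trans (Nat.floor_le (by positivity))
    have h4 : ((k : ℝ) + 1) ^ E ≤ T / C := by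
      calc ((k : ℝ) + 1) ^ E ≤ ((T / C) ^ (1 / E)) ^ E :=
            Real.rpow_le_rpow (by positivity) h3 hE.le
        _ = T / C := by
            rw [← Real.rpow_mul hTC.le, one_div_mul_cancel hE.ne', Real.rpow_one]
    rw [le_div_iff₀ hC] at h4
    linarith

lemma seq_lower_log {N : ℝ → ℝ} {Z : ℕ} (hZ : 0 < Z) {C E : ℝ} (hC : 0 < C) (hE : 0 < E)
    (h : ∀ T : ℝ, ∀ M : ℕ, (∀ k < M, Real.exp (C * ((k : ℝ) + 1) ^ E) ≤ T) →
      (M : ℝ) ≤ Z + Z * N T) :
    ∃ c > 0, ∀ᶠ T in atTop, c * Real.log T ^ (1 / E) ≤ N T := by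
  obtain ⟨c, hc, h1⟩ := seq_lower (N := fun s => N (Real.exp s)) hZ hC hE (by
    intro s M hM
    exact h _ M (fun k hk => Real.exp_le_exp.mpr (hM k hk)))
  refine ⟨c, hc, ?_⟩
  filter_upwards [Real.tendsto_log_atTop.eventually h1, eventually_gt_atTop 0] with T h2 h3
  rwa [Real.exp_log h3] at h2

variable {K : Type} [Field K] {n : ℕ}

/-- The bound for the number of points of bounded height of projective space, as a hypothesis. -/
def CardLe (n : ℕ) : Prop := ∀ (L : Type) [Field L] [NumberField L], ∃ C c : ℝ, 0 < C ∧ 0 < c ∧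
  ∀ B : ℝ, 1 ≤ B → {P : Projectivization L (Fin (n + 1) → L) | P.mulHeight ≤ B}.Finite ∧
    ({P : Projectivization L (Fin (n + 1) → L) | P.mulHeight ≤ B}.ncard : ℝ) ≤ C * B ^ c

lemma upper [NumberField K] (hcard : CardLe n) {X : Set (PP (AlgebraicClosure K) n)}
    {H : PP (AlgebraicClosure K) n → ℝ} (hH : Comparable X H)
    (L : IntermediateField K (AlgebraicClosure K)) (hL : FiniteDimensional K L) :
    (∀ T : ℝ, {P | P ∈ X ∧ P ∈ rat L ∧ H P ≤ T}.Finite) ∧
    ∃ C c : ℝ, 0 < C ∧ 0 < c ∧ ∀ᶠ T : ℝ in atTop,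
      ({P | P ∈ X ∧ P ∈ rat L ∧ H P ≤ T}.ncard : ℝ) ≤ C * T ^ c := by
  have : NumberField L := NumberField.of_module_finite K L
  obtain ⟨C, α, β, hC, hα, hβ, hv⟩ := hH L hL
  obtain ⟨C₁, c₁, hC₁, hc₁, h1⟩ := hcard L
  have hlift : ∀ v : Fin (n + 1) → L, v ≠ 0 → lift L v ≠ 0 := by
    intro v hv h0
    apply hv
    funext i
    have := congrFun h0 i
    simpa [lift] using this
  let φ : Projectivization L (Fin (n + 1) → L) → PP (AlgebraicClosure K) n := fun P =>
    Projectivization.mk _ (lift L P.rep) (hlift _ P.rep_nonzero)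
  have hφ : ∀ (v : Fin (n + 1) → L) (h : lift L v ≠ 0) (h' : v ≠ 0),
      φ (Projectivization.mk L v h') = Projectivization.mk _ (lift L v) h := by
    intro v h h'
    simp only [φ]
    obtain ⟨a, ha⟩ := Projectivization.exists_smul_eq_mk_rep L v h'
    rw [Projectivization.mk_eq_mk_iff']
    refine ⟨((a : L) : AlgebraicClosure K), ?_⟩
    funext i
    rw [← ha]
    simp [lift, Units.smul_def]
  have hsub : ∀ T : ℝ, 0 < T → ∀ B : ℝ, (C * T) ^ (1 / α) ≤ B →
      {P | P ∈ X ∧ P ∈ rat L ∧ H P ≤ T} ⊆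
      φ '' {P : Projectivization L (Fin (n + 1) → L) | P.mulHeight ≤ B} := by
    rintro T hT B hB P ⟨hPX, ⟨v, hv0, rfl⟩, hHP⟩
    have hv0' : v ≠ 0 := by
      rintro rfl
      exact hv0 (by funext i; simp [lift])
    refine ⟨Projectivization.mk L v hv0', ?_, hφ v hv0 hv0'⟩
    show (Projectivization.mk L v hv0').mulHeight ≤ B
    rw [Projectivization.mulHeight_mk]
    refine le_trans ?_ hB
    have h2 := (hv v hv0 hPX).1.trans hHP
    have h3 : height L hL v ^ α ≤ C * T := by
      rwa [inv_mul_le_iff₀ hC] at h2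
    have h4 : (0 : ℝ) ≤ height L hL v := (Height.mulHeight_pos _).le
    calc Height.mulHeight v = (height L hL v ^ α) ^ (1 / α) := by
          rw [← Real.rpow_mul h4, mul_one_div_cancel hα.ne', Real.rpow_one]
          rfl
      _ ≤ (C * T) ^ (1 / α) := Real.rpow_le_rpow (by positivity) h3 (by positivity)
  constructor
  · intro T
    have h2 := hsub (max T 1) (by positivity) (max ((C * max T 1) ^ (1 / α)) 1) (le_max_left _ _)
    refine ((h1 _ (le_max_right _ _)).1.image φ).subset (Set.Subset.trans ?_ h2)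
    rintro P ⟨ha, hb, hc⟩
    exact ⟨ha, hb, hc.trans (le_max_left _ _)⟩
  · refine ⟨C₁ * (C ^ (1 / α)) ^ c₁, 1 / α * c₁, by positivity, by positivity, ?_⟩
    have h3 : Tendsto (fun T : ℝ => (C * T) ^ (1 / α)) atTop atTop :=
      (tendsto_rpow_atTop (by positivity)).comp (tendsto_id.const_mul_atTop hC)
    filter_upwards [h3.eventually_ge_atTop 1, eventually_gt_atTop 0] with T hT hT0
    have h2 := hsub T hT0 _ le_rfl
    obtain ⟨hf, hn⟩ := h1 _ hT
    calc ({P | P ∈ X ∧ P ∈ rat L ∧ H P ≤ T}.ncard : ℝ)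
        ≤ ((φ '' {P : Projectivization L (Fin (n + 1) → L) | P.mulHeight ≤
            (C * T) ^ (1 / α)}).ncard : ℝ) := by
          exact_mod_cast Set.ncard_le_ncard h2 (hf.image φ)
      _ ≤ ({P : Projectivization L (Fin (n + 1) → L) | P.mulHeight ≤
            (C * T) ^ (1 / α)}.ncard : ℝ) := by
          exact_mod_cast Set.ncard_image_le hf
      _ ≤ C₁ * ((C * T) ^ (1 / α)) ^ c₁ := hn
      _ = C₁ * (C ^ (1 / α)) ^ c₁ * T ^ (1 / α * c₁) := by
          rw [Real.mul_rpow hC.le hT0.le, Real.mul_rpow (by positivity) (by positivity),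
            ← Real.rpow_mul hT0.le]
          ring

/-- A common field of definition of finitely many algebraic elements. -/
lemma exists_field (s : Set (AlgebraicClosure K)) (hs : s.Finite) :
    ∃ L₀ : IntermediateField K (AlgebraicClosure K), FiniteDimensional K L₀ ∧ s ⊆ L₀ := by
  have : Finite s := hs
  refine ⟨IntermediateField.adjoin K s, ?_, IntermediateField.subset_adjoin K s⟩
  exact IntermediateField.finiteDimensional_adjoin
    (fun x _ => Algebra.IsIntegral.isIntegral x)

lemma exists_lift_poly (L : IntermediateField K (AlgebraicClosure K))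
    (p : Polynomial (AlgebraicClosure K)) (h : ∀ k, p.coeff k ∈ L) :
    ∃ p' : Polynomial L, p'.map (algebraMap L (AlgebraicClosure K)) = p := by
  have h1 : p ∈ Polynomial.lifts (algebraMap L (AlgebraicClosure K)) := by
    rw [Polynomial.lifts_iff_coeff_lifts]
    intro k
    exact ⟨⟨p.coeff k, h k⟩, rfl⟩
  exact (Polynomial.mem_lifts p).mp h1

lemma finite_coeffs (p : Fin (n + 1) → Polynomial (AlgebraicClosure K)) :
    (⋃ i, Set.range (fun k => (p i).coeff k)).Finite := by
  refine Set.finite_iUnion fun i => ?_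
  have : Set.range (fun k => (p i).coeff k) ⊆
      insert 0 ((fun k => (p i).coeff k) '' ((p i).support : Set ℕ)) := by
    rintro _ ⟨k, rfl⟩
    by_cases hk : (p i).coeff k = 0
    · exact Or.inl hk
    · exact Or.inr ⟨k, by simpa using hk, rfl⟩
  exact (((p i).support.finite_toSet.image _).insert 0).subset this

theorem lower_rational [NumberField K] (hcard : CardLe n) {X : Set (PP (AlgebraicClosure K) n)}
    {H : PP (AlgebraicClosure K) n → ℝ} (hH : Comparable X H)
    {U : Set (PP (AlgebraicClosure K) n)} (hU : IsOpenIn K X U)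
    (p : Fin (n + 1) → Polynomial (AlgebraicClosure K))
    (hp : Meets (fun (t : AlgebraicClosure K) i => (p i).eval t) X U) :
    ∃ L₀ : IntermediateField K (AlgebraicClosure K), FiniteDimensional K L₀ ∧
      ∀ L : IntermediateField K (AlgebraicClosure K), L₀ ≤ L → FiniteDimensional K L →
        ∃ c c' : ℝ, 0 < c ∧ 0 < c' ∧ ∀ᶠ T : ℝ in atTop, c * T ^ c' ≤ count U H L T := by
  obtain ⟨L₀, hL₀, hs⟩ := exists_field _ (finite_coeffs p)
  refine ⟨L₀, hL₀, fun L hLL hL => ?_⟩
  have : NumberField L := NumberField.of_module_finite K L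
  obtain ⟨Z, bad, hbf, hbZ, hgood, hfib⟩ := meets_fin (tame_polyFun _)
    (fun i => mem_polyFun (p i)) hU hp
  have hcoeff : ∀ i k, (p i).coeff k ∈ L := fun i k =>
    hLL (hs (Set.mem_iUnion.mpr ⟨i, ⟨k, rfl⟩⟩))
  choose p' hp' using fun i => exists_lift_poly L (p i) (hcoeff i)
  obtain ⟨C, D, hC, hCD⟩ := tuple_poly_le (F := L) p' 0
  obtain ⟨C₁, α, β, hC₁, hα, hβ, hv⟩ := hH L hL
  set w := Height.totalWeight L with hw
  have hUX : U ⊆ X := by
    obtain ⟨-, Z, -, rfl⟩ := hU
    exact Set.sdiff_subset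
  -- the points
  let v : ℕ → Fin (n + 1) → L := fun k i => (p' i).eval ((k + 1 : ℕ) : L)
  have hlift : ∀ k, lift L (v k) = fun i => (p i).eval ((k + 1 : ℕ) : AlgebraicClosure K) := by
    intro k
    funext i
    simp only [lift, v]
    rw [← hp' i, Polynomial.eval_natCast_map]
    rfl
  have hht : ∀ k, height L hL (v k) ≤ C * ((k : ℝ) + 1) ^ (w * D) := by
    intro k
    have h1 := hCD ((k + 1 : ℕ) : L) 0
    have h2 := natCast_le (F := L) (k + 1) (by omega)
    have h3 : (fun i => (p' i).eval ((k + 1 : ℕ) : L) + ((0 : Fin (n + 1) → Polynomial L) i).eval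
        ((k + 1 : ℕ) : L) * 0) = v k := by
      funext i
      simp [v]
    rw [h3, Height.mulHeight₁_zero, mul_one] at h1
    refine h1.trans ?_
    rw [pow_mul]
    push_cast at h2 ⊢
    gcongr
  set E : ℝ := (w * D : ℕ) * β + 1 with hE
  have hE0 : 0 < E := by positivity
  set C₂ : ℝ := C₁ * C ^ β with hC₂
  have hC₂0 : 0 < C₂ := by positivity
  have hHk : ∀ (k : ℕ) (h : lift L (v k) ≠ 0), Projectivization.mk _ (lift L (v k)) h ∈ X →
      H (Projectivization.mk _ (lift L (v k)) h) ≤ C₂ * ((k : ℝ) + 1) ^ E := by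
    intro k h hX
    refine (hv (v k) h hX).2.trans ?_
    have h0 : (0 : ℝ) ≤ height L hL (v k) := (Height.mulHeight_pos _).le
    have hk1 : (1 : ℝ) ≤ (k : ℝ) + 1 := by
      have : (0 : ℝ) ≤ k := Nat.cast_nonneg k
      linarith
    calc C₁ * height L hL (v k) ^ β ≤ C₁ * (C * ((k : ℝ) + 1) ^ (w * D)) ^ β := by
          gcongr
          exact hht k
      _ = C₂ * ((k : ℝ) + 1) ^ ((w * D : ℕ) * β) := by
          rw [Real.mul_rpow (by positivity) (by positivity), hC₂, ← Real.rpow_natCast,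
            ← Real.rpow_mul (by positivity)]
          ring
      _ ≤ C₂ * ((k : ℝ) + 1) ^ E := by
          gcongr
          rw [hE]; linarith
  obtain ⟨c, hc, hcT⟩ := seq_lower (N := fun T => (count U H L T : ℝ)) (Z := Z + 1)
    (by omega) hC₂0 hE0 (by
      intro T M hM
      have h1 := count_ge (f := fun (t : AlgebraicClosure K) i => (p i).eval t) (U := U) (H := H)
        (L := L) (T := T) (Z := Z + 1) hbf (by omega) hgood
        (fun a h => ⟨(hfib a h).1, (hfib a h).2.trans (by omega)⟩)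
        (fun k => ((k + 1 : ℕ) : AlgebraicClosure K))
        (by
          intro k l hkl
          have : ((k + 1 : ℕ) : AlgebraicClosure K) = ((l + 1 : ℕ) : AlgebraicClosure K) := hkl
          have := Nat.cast_injective this
          omega) M
        (fun k _ => ⟨v k, hlift k⟩)
        (by
          intro k hk h
          have h' : lift L (v k) ≠ 0 := by rw [hlift k]; exact h
          have e1 : Projectivization.mk (AlgebraicClosure K) (lift L (v k)) h' =
              Projectivization.mk (AlgebraicClosure K)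
                (fun i => (p i).eval ((k + 1 : ℕ) : AlgebraicClosure K)) h := by
            congr 1
            exact hlift k
          have h2 := hHk k h' (by rw [e1]; exact hp.1 _ h)
          rw [e1] at h2
          exact h2.trans (hM k hk))
        (((upper hcard hH L hL).1 T).subset (by
          rintro P ⟨h1, h2, h3⟩
          exact ⟨hUX h1, h2, h3⟩))
      exact_mod_cast h1)
  exact ⟨c, 1 / E, hc, by positivity, hcT⟩

/-- Part (A): varieties with a dense set of rational curves have arithmetic order zero. -/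
theorem order_zero_of_dense [NumberField K] (hcard : CardLe n)
    {X : Set (PP (AlgebraicClosure K) n)} (hX : X.Nonempty)
    {H : PP (AlgebraicClosure K) n → ℝ} (hH : Comparable X H) (hD : DenseRational K X) :
    HasOrder K X H 0 := by
  refine ⟨2, le_rfl, X, ⟨hX, ∅, ⟨{1}, ?_, ?_⟩, by simp⟩, fun U hU _ => ?_⟩
  · intro G hG
    rw [Set.mem_singleton_iff] at hG
    exact ⟨0, hG ▸ MvPolynomial.isHomogeneous_one _ _⟩
  · ext P
    simp [zeros]
  · obtain ⟨p, hp⟩ := hD U hU
    obtain ⟨L₀, hL₀, h⟩ := lower_rational hcard hH hU p hp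
    refine ⟨L₀, hL₀, fun L hLL hL => ?_⟩
    obtain ⟨c, c', hc, hc', hlo⟩ := h L hLL hL
    obtain ⟨hfin, C, C', hC, hC', hup⟩ := upper hcard hH L hL
    have hUX : U ⊆ X := by
      obtain ⟨-, Z, -, rfl⟩ := hU
      exact Set.sdiff_subset
    refine order_zero (N := fun T => (count U H L T : ℝ)) hc hc' hC hC' hlo ?_
    filter_upwards [hup] with T hT
    refine le_trans ?_ hT
    unfold count
    exact_mod_cast Set.ncard_le_ncard (by
      rintro P ⟨h1, h2, h3⟩
      exact ⟨hUX h1, h2, h3⟩) (hfin T)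

end Pool.Agent.Helper3.A9
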