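import Pool.Agent.Helper3.A9.Defs

/-!
# Curves in projective space: finitely many bad parameters, bounded fibres
-/

set_option autoImplicit false

namespace Pool.Agent.Helper3.A9

open Projectivization

lemma aeval_smul_hom {K F : Type} [Field K] [Field F] [Algebra K F] {n : ℕ}
    {G : MvPolynomial (Fin (n + 1)) K} {d : ℕ} (hG : G.IsHomogeneous d) (c : F)
    (v : Fin (n + 1) → F) :
    MvPolynomial.aeval (c • v) G = c ^ d * MvPolynomial.aeval v G := by
  rw [MvPolynomial.aeval_def, MvPolynomial.aeval_def, MvPolynomial.eval₂_eq',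
    MvPolynomial.eval₂_eq', Finset.mul_sum]
  refine Finset.sum_congr rfl fun m hm => ?_
  have hm' : m.degree = d := by
    have := hG (MvPolynomial.mem_support_iff.mp hm)
    rwa [Finsupp.degree_eq_weight_one]
  have h1 : ∏ i, (c • v) i ^ m i = c ^ d * ∏ i, v i ^ m i := by
    simp only [Pi.smul_apply, smul_eq_mul, mul_pow, Finset.prod_mul_distrib]
    congr 1
    rw [Finset.prod_pow_eq_pow_sum, ← hm', Finsupp.degree_eq_sum]
  rw [h1]
  ring

lemma mk_mem_zeros {K : Type} [Field K] {n : ℕ} {S : Set (MvPolynomial (Fin (n + 1)) K)}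
    (hS : ∀ G ∈ S, ∃ d : ℕ, G.IsHomogeneous d) (v : Fin (n + 1) → AlgebraicClosure K)
    (hv : v ≠ 0) :
    Projectivization.mk (AlgebraicClosure K) v hv ∈ zeros S ↔
      ∀ G ∈ S, MvPolynomial.aeval v G = 0 := by
  obtain ⟨a, ha⟩ := Projectivization.exists_smul_eq_mk_rep (AlgebraicClosure K) v hv
  unfold zeros
  simp only [Set.mem_ofPred_eq]
  refine forall₂_congr fun G hG => ?_
  obtain ⟨d, hd⟩ := hS G hG
  rw [← ha, Units.smul_def, aeval_smul_hom hd]
  simp

/-- A ring of functions with finitely many zeros. -/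
structure Tame {F A : Type} [Field F] (R : Subalgebra F (A → F)) : Prop where
  fin : ∀ g ∈ R, g ≠ 0 → {a | g a = 0}.Finite
  bdd : ∀ g ∈ R, ∀ h ∈ R, ∃ Z : ℕ, ∀ c d : F, c • g + d • h ≠ 0 →
    {a | (c • g + d • h) a = 0}.ncard ≤ Z

lemma aeval_mem {K A : Type} [Field K] {n : ℕ} {f : A → Fin (n + 1) → AlgebraicClosure K}
    {R : Subalgebra (AlgebraicClosure K) (A → AlgebraicClosure K)}
    (hf : ∀ i, (fun a => f a i) ∈ R) (G : MvPolynomial (Fin (n + 1)) K) :
    (fun a => MvPolynomial.aeval (f a) G) ∈ R := by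
  induction G using MvPolynomial.induction_on with
  | C r =>
    have := R.algebraMap_mem (algebraMap K (AlgebraicClosure K) r)
    convert this using 1
    funext a
    simp
  | add p q hp hq =>
    have := R.add_mem hp hq
    convert this using 1
    funext a
    simp
  | mul_X p i hp =>
    have := R.mul_mem hp (hf i)
    convert this using 1
    funext a
    simp

theorem meets_fin {K A : Type} [Field K] {n : ℕ} {f : A → Fin (n + 1) → AlgebraicClosure K}
    {R : Subalgebra (AlgebraicClosure K) (A → AlgebraicClosure K)} (hR : Tame R)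
    (hf : ∀ i, (fun a => f a i) ∈ R) {X U : Set (PP (AlgebraicClosure K) n)}
    (hU : IsOpenIn K X U) (h : Meets f X U) :
    ∃ Z : ℕ, ∃ bad : Set A, bad.Finite ∧ bad.ncard ≤ Z ∧
      (∀ a ∉ bad, ∃ h : f a ≠ 0, Projectivization.mk _ (f a) h ∈ U) ∧
      ∀ (a : A) (h : f a ≠ 0),
        {b | ∃ h' : f b ≠ 0, Projectivization.mk (AlgebraicClosure K) (f b) h' =
          Projectivization.mk _ (f a) h}.Finite ∧
        {b | ∃ h' : f b ≠ 0, Projectivization.mk (AlgebraicClosure K) (f b) h' =
          Projectivization.mk _ (f a) h}.ncard ≤ Z := by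
  obtain ⟨hX, hnc, a₀, ha₀, ha₀U⟩ := h
  obtain ⟨-, Z, ⟨S, hS, rfl⟩, rfl⟩ := hU
  have h1 : ¬ ∀ G ∈ S, MvPolynomial.aeval (f a₀) G = 0 := by
    rw [← mk_mem_zeros hS _ ha₀]
    exact ha₀U.2
  push Not at h1
  obtain ⟨G, hG, hG0⟩ := h1
  obtain ⟨i₀, hi₀⟩ := Function.ne_iff.mp ha₀
  simp only [Pi.zero_apply] at hi₀
  have hg := aeval_mem hf G
  have hgne : (fun a => MvPolynomial.aeval (f a) G) ≠ 0 := fun h0 => hG0 (congrFun h0 a₀)
  have hi₀ne : (fun a => f a i₀) ≠ 0 := fun h0 => hi₀ (congrFun h0 a₀)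
  set bad : Set A := {a | MvPolynomial.aeval (f a) G = 0} ∪ {a | f a i₀ = 0} with hbad
  have hbadfin : bad.Finite := (hR.fin _ hg hgne).union (hR.fin _ (hf i₀) hi₀ne)
  choose Z hZ using fun i j => hR.bdd _ (hf i) _ (hf j)
  refine ⟨bad.ncard + ∑ i, ∑ j, Z i j, bad, hbadfin, by omega, ?_, ?_⟩
  · intro a ha
    rw [hbad, Set.mem_union, not_or] at ha
    have hfa : f a ≠ 0 := by
      intro h0
      exact ha.2 (by simp [h0])
    refine ⟨hfa, hX a hfa, ?_⟩
    rw [mk_mem_zeros hS]
    intro h0
    exact ha.1 (h0 G hG)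
  · intro a ha
    have h2 : ∃ i j, (f a j) • (fun b => f b i) + (-(f a i)) • (fun b => f b j) ≠ 0 := by
      by_contra hcon
      push Not at hcon
      have h3 : ∀ b i j, f a j * f b i = f a i * f b j := by
        intro b i j
        have := congrFun (hcon i j) b
        simp only [Pi.add_apply, Pi.smul_apply, smul_eq_mul, Pi.zero_apply] at this
        linear_combination this
      obtain ⟨j, hj⟩ := Function.ne_iff.mp ha
      simp only [Pi.zero_apply] at hj
      have h4 : ∀ (b : A) (hb : f b ≠ 0), Projectivization.mk (AlgebraicClosure K) (f b) hb =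
          Projectivization.mk _ (f a) ha := by
        intro b hb
        rw [Projectivization.mk_eq_mk_iff']
        refine ⟨f b j / f a j, ?_⟩
        funext i
        simp only [Pi.smul_apply, smul_eq_mul]
        have := h3 b i j
        field_simp
        linear_combination -this
      obtain ⟨b, c, hb, hc, hbc⟩ := hnc
      exact hbc ((h4 b hb).trans (h4 c hc).symm)
    obtain ⟨i, j, hij⟩ := h2
    have hsub : {b | ∃ h' : f b ≠ 0, Projectivization.mk (AlgebraicClosure K) (f b) h' =
          Projectivization.mk _ (f a) ha} ⊆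
        {b | ((f a j) • (fun b => f b i) + (-(f a i)) • (fun b => f b j)) b = 0} := by
      rintro b ⟨hb, hba⟩
      rw [Projectivization.mk_eq_mk_iff'] at hba
      obtain ⟨c, hc⟩ := hba
      simp only [Set.mem_ofPred_eq, Pi.add_apply, Pi.smul_apply, smul_eq_mul]
      rw [← hc]
      simp only [Pi.smul_apply, smul_eq_mul]
      ring
    have hmem : (f a j) • (fun b => f b i) + (-(f a i)) • (fun b => f b j) ∈ R :=
      R.add_mem (R.smul_mem (hf i) _) (R.smul_mem (hf j) _)
    have hfin := hR.fin _ hmem hij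
    refine ⟨hfin.subset hsub, (Set.ncard_le_ncard hsub hfin).trans
      ((hZ i j (f a j) (-(f a i)) hij).trans ?_)⟩
    have h5 : Z i j ≤ ∑ j, Z i j := Finset.single_le_sum (f := fun j => Z i j)
      (fun _ _ => Nat.zero_le _) (Finset.mem_univ j)
    have h6 : ∑ j, Z i j ≤ ∑ i, ∑ j, Z i j := Finset.single_le_sum (f := fun i => ∑ j, Z i j)
      (fun _ _ => Nat.zero_le _) (Finset.mem_univ i)
    omega

open Classical in
/-- Counting points from a sequence of parameters. -/
theorem count_ge {K A : Type} [Field K] {n : ℕ} {f : A → Fin (n + 1) → AlgebraicClosure K}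
    {U : Set (PP (AlgebraicClosure K) n)} {H : PP (AlgebraicClosure K) n → ℝ}
    {L : IntermediateField K (AlgebraicClosure K)} {T : ℝ} {Z : ℕ} {bad : Set A}
    (hbf : bad.Finite) (hb : bad.ncard ≤ Z)
    (hgood : ∀ a ∉ bad, ∃ h : f a ≠ 0, Projectivization.mk _ (f a) h ∈ U)
    (hfib : ∀ (a : A) (h : f a ≠ 0),
        {b | ∃ h' : f b ≠ 0, Projectivization.mk (AlgebraicClosure K) (f b) h' =
          Projectivization.mk _ (f a) h}.Finite ∧
        {b | ∃ h' : f b ≠ 0, Projectivization.mk (AlgebraicClosure K) (f b) h' =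
          Projectivization.mk _ (f a) h}.ncard ≤ Z)
    (a : ℕ → A) (ha : Function.Injective a) (M : ℕ)
    (hrat : ∀ k < M, ∃ v : Fin (n + 1) → L, lift L v = f (a k))
    (hH : ∀ k < M, ∀ h : f (a k) ≠ 0, H (Projectivization.mk _ (f (a k)) h) ≤ T)
    (hfin : {P | P ∈ U ∧ P ∈ rat L ∧ H P ≤ T}.Finite) :
    M ≤ Z + Z * count U H L T := by
  set s : Finset ℕ := (Finset.range M).filter (fun k => a k ∉ bad) with hs
  have hs1 : M ≤ Z + s.card := by
    have h1 : ((Finset.range M).filter (fun k => ¬ a k ∉ bad)).card ≤ Z := by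
      refine le_trans ?_ hb
      rw [Set.ncard_eq_toFinset_card bad hbf]
      refine Finset.card_le_card_of_injOn a ?_ ha.injOn
      intro k hk
      simp only [Finset.coe_filter, Set.mem_ofPred_eq, not_not] at hk
      simpa using hk.2
    have h2 : s.card + ((Finset.range M).filter (fun k => ¬ a k ∉ bad)).card = M := by
      have h3 := Finset.card_filter_add_card_filter_not (s := Finset.range M)
        (fun k => a k ∉ bad)
      rw [Finset.card_range] at h3
      rw [hs]
      convert h3
    omega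
  have hne : ∀ k ∈ s, f (a k) ≠ 0 := by
    intro k hk
    rw [hs, Finset.mem_filter] at hk
    exact (hgood _ hk.2).1
  let g : ℕ → PP (AlgebraicClosure K) n := fun k =>
    if h : f (a k) ≠ 0 then Projectivization.mk _ (f (a k)) h
      else Projectivization.mk _ (fun _ => 1) (fun h0 => one_ne_zero (congrFun h0 0))
  have hg : ∀ k (h : f (a k) ≠ 0), g k = Projectivization.mk _ (f (a k)) h := by
    intro k h
    simp only [g]
    rw [dif_pos h]
  have himg : ∀ k ∈ s, g k ∈ hfin.toFinset := by
    intro k hk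
    have h0 := hne k hk
    rw [hs, Finset.mem_filter, Finset.mem_range] at hk
    rw [Set.Finite.mem_toFinset, hg k h0]
    refine ⟨(hgood _ hk.2).2, ?_, hH k hk.1 h0⟩
    obtain ⟨v, hv⟩ := hrat k hk.1
    refine ⟨v, hv ▸ h0, ?_⟩
    congr 1
    exact hv.symm
  have hcard := Finset.card_le_mul_card_image_of_maps_to (f := g) himg Z ?_
  · have hc : hfin.toFinset.card = count U H L T := by
      unfold count
      rw [Set.ncard_eq_toFinset_card _ hfin]
    rw [hc] at hcard
    omega
  · intro P hP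
    by_cases hemp : (s.filter (fun k => g k = P)) = ∅
    · rw [hemp]; simp
    · obtain ⟨k₀, hk₀⟩ := Finset.nonempty_iff_ne_empty.mpr hemp
      rw [Finset.mem_filter] at hk₀
      have h0 := hne k₀ hk₀.1
      obtain ⟨hF, hF'⟩ := hfib (a k₀) h0
      refine le_trans ?_ hF'
      rw [Set.ncard_eq_toFinset_card _ hF]
      refine Finset.card_le_card_of_injOn a ?_ ha.injOn
      intro k hk
      simp only [Finset.coe_filter, Set.mem_ofPred_eq] at hk
      simp only [Set.Finite.coe_toFinset, Set.mem_ofPred_eq]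
      refine ⟨hne k hk.1, ?_⟩
      rw [← hg k (hne k hk.1), ← hg k₀ h0, hk.2, hk₀.2]

end Pool.Agent.Helper3.A9
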