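import Mathlib

/-!
# The arithmetic order of a projective variety: definitions
-/

set_option autoImplicit false

namespace Pool.Agent.Helper3.A9

open Filter Topology

/-- Projective `n`-space over a field `F` (lines of `F ^ (n + 1)`). -/
abbrev PP (F : Type) [Field F] (n : ℕ) : Type := Projectivization F (Fin (n + 1) → F)

variable {K : Type} [Field K] {n : ℕ}

/-- The common zeros, in projective space over the algebraic closure of `K`, of a set of forms with
coefficients in `K`. -/
def zeros (S : Set (MvPolynomial (Fin (n + 1)) K)) : Set (PP (AlgebraicClosure K) n) :=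
  {P | ∀ G ∈ S, MvPolynomial.aeval P.rep G = 0}

/-- Zariski closed subsets (over `K`) of projective space: the common zeros of a set of homogeneous
polynomials over `K`. -/
def IsClosedOver (K : Type) [Field K] {n : ℕ} (Z : Set (PP (AlgebraicClosure K) n)) : Prop :=
  ∃ S : Set (MvPolynomial (Fin (n + 1)) K), (∀ G ∈ S, ∃ d : ℕ, G.IsHomogeneous d) ∧ Z = zeros S

/-- Nonempty Zariski open subsets of `X` (over `K`). -/
def IsOpenIn (K : Type) [Field K] {n : ℕ} (X U : Set (PP (AlgebraicClosure K) n)) : Prop :=
  U.Nonempty ∧ ∃ Z, IsClosedOver K Z ∧ U = X \ Z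

/-- The coordinates of a vector over `L`, seen in the algebraic closure. -/
def lift (L : IntermediateField K (AlgebraicClosure K)) (v : Fin (n + 1) → L) :
    Fin (n + 1) → AlgebraicClosure K := fun i => (v i : AlgebraicClosure K)

/-- The `L`-rational points of projective space. -/
def rat (L : IntermediateField K (AlgebraicClosure K)) : Set (PP (AlgebraicClosure K) n) :=
  {P | ∃ (v : Fin (n + 1) → L) (h : lift L v ≠ 0), P = Projectivization.mk _ (lift L v) h}

/-- The height of a point of projective space over a finite extension `L` of the number field `K`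
(Mathlib's multiplicative height over the number field `L`: the product of the local maxima over all
places of `L`). -/
noncomputable def height [NumberField K] (L : IntermediateField K (AlgebraicClosure K))
    (hL : FiniteDimensional K L) (v : Fin (n + 1) → L) : ℝ :=
  haveI : NumberField L := NumberField.of_module_finite K L
  Height.mulHeight v

/-- `H` is, over each finite extension `L` of `K`, comparable on `X(L)` up to powers and constants
with the height of projective space. -/
def Comparable [NumberField K] (X : Set (PP (AlgebraicClosure K) n))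
    (H : PP (AlgebraicClosure K) n → ℝ) : Prop :=
  ∀ (L : IntermediateField K (AlgebraicClosure K)) (hL : FiniteDimensional K L),
    ∃ C α β : ℝ, 0 < C ∧ 0 < α ∧ 0 < β ∧ ∀ (v : Fin (n + 1) → L) (h : lift L v ≠ 0),
      Projectivization.mk _ (lift L v) h ∈ X →
        C⁻¹ * height L hL v ^ α ≤ H (Projectivization.mk _ (lift L v) h) ∧
        H (Projectivization.mk _ (lift L v) h) ≤ C * height L hL v ^ β

/-- The number of `L`-rational points of `U` with `H ≤ T`. -/
noncomputable def count (U : Set (PP (AlgebraicClosure K) n)) (H : PP (AlgebraicClosure K) n → ℝ)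
    (L : IntermediateField K (AlgebraicClosure K)) (T : ℝ) : ℕ :=
  {P | P ∈ U ∧ P ∈ rat L ∧ H P ≤ T}.ncard

/-- `X` has arithmetic order `a`. -/
def HasOrder (K : Type) [Field K] {n : ℕ} (X : Set (PP (AlgebraicClosure K) n))
    (H : PP (AlgebraicClosure K) n → ℝ) (a : ℕ) : Prop :=
  ∃ m : ℕ, 2 ≤ m ∧ ∃ U₀, IsOpenIn K X U₀ ∧ ∀ U, IsOpenIn K X U → U ⊆ U₀ →
    ∃ L₀ : IntermediateField K (AlgebraicClosure K), FiniteDimensional K L₀ ∧
      ∀ L : IntermediateField K (AlgebraicClosure K), L₀ ≤ L → FiniteDimensional K L →
        Tendsto (fun T : ℝ => Real.log^[m] (count U H L T) / Real.log^[m + a] T) atTop (𝓝 1)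

/-- `X` has arithmetic order infinity: the limits are `0`. -/
def HasOrderTop (K : Type) [Field K] {n : ℕ} (X : Set (PP (AlgebraicClosure K) n))
    (H : PP (AlgebraicClosure K) n → ℝ) : Prop :=
  ∃ m : ℕ, 2 ≤ m ∧ ∃ U₀, IsOpenIn K X U₀ ∧ ∀ U, IsOpenIn K X U → U ⊆ U₀ →
    ∀ L : IntermediateField K (AlgebraicClosure K), FiniteDimensional K L → ∀ a : ℕ,
      Tendsto (fun T : ℝ => Real.log^[m] (count U H L T) / Real.log^[m + a] T) atTop (𝓝 0)

/-- The map `f` from a set `A` of parameters to projective space (`f a` is a vector of coordinates;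
no value at `a` if `f a = 0`) is non-constant, has its values in `X`, and one of them in `U`. -/
def Meets {A : Type} (f : A → Fin (n + 1) → AlgebraicClosure K)
    (X U : Set (PP (AlgebraicClosure K) n)) : Prop :=
  (∀ (a : A) (h : f a ≠ 0), Projectivization.mk _ (f a) h ∈ X) ∧
  (∃ (a b : A) (h : f a ≠ 0) (h' : f b ≠ 0),
    Projectivization.mk (AlgebraicClosure K) (f a) h ≠ Projectivization.mk _ (f b) h') ∧
  ∃ (a : A) (h : f a ≠ 0), Projectivization.mk _ (f a) h ∈ U

/-- The rational curves over the algebraic closure contained in `X` are Zariski dense in `X`: each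
nonempty open subset of `X` is met by the image in `X` of a non-constant map `t ↦ (p₀(t): … :pₙ(t))`
given by polynomials. -/
def DenseRational (K : Type) [Field K] {n : ℕ} (X : Set (PP (AlgebraicClosure K) n)) : Prop :=
  ∀ U, IsOpenIn K X U → ∃ p : Fin (n + 1) → Polynomial (AlgebraicClosure K),
    Meets (fun (t : AlgebraicClosure K) i => (p i).eval t) X U

/-- The affine points of a Weierstrass curve. -/
abbrev Aff {F : Type} [Field F] (W : WeierstrassCurve F) : Type :=
  {P : F × F // W.toAffine.Equation P.1 P.2}

/-- The images of elliptic curves over the algebraic closure in `X` are Zariski dense in `X`: each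
nonempty open subset of `X` is met by the image in `X` of a non-constant map
`(x, y) ↦ (p₀(x) + q₀(x) y : … : pₙ(x) + qₙ(x) y)` on an elliptic curve. -/
def DenseElliptic (K : Type) [Field K] {n : ℕ} (X : Set (PP (AlgebraicClosure K) n)) : Prop :=
  ∀ U, IsOpenIn K X U → ∃ (W : WeierstrassCurve (AlgebraicClosure K)) (_ : W.IsElliptic)
    (p q : Fin (n + 1) → Polynomial (AlgebraicClosure K)),
    Meets (fun (P : Aff W) i => (p i).eval P.1.1 + (q i).eval P.1.1 * P.1.2) X U

end Pool.Agent.Helper3.A9
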