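import Pool.Agent.Helper3.A9.Lower

/-!
# An elliptic curve over the algebraic closure of a number field has a point of infinite order
-/

set_option autoImplicit false

namespace Pool.Agent.Helper3.A9

open Height WeierstrassCurve

/-- Duplication formula for the `x`-coordinate. -/
lemma dbl {F : Type} [Field F] [DecidableEq F] (W : WeierstrassCurve F) {x y : F}
    (h : W.toAffine.Nonsingular x y) (hΨ : 4 * x ^ 3 + W.b₂ * x ^ 2 + 2 * W.b₄ * x + W.b₆ ≠ 0) :
    ∃ (x' y' : F) (h' : W.toAffine.Nonsingular x' y'),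
      (2 : ℕ) • (Affine.Point.some x y h) = Affine.Point.some x' y' h' ∧
      x' = (x ^ 4 - W.b₄ * x ^ 2 - 2 * W.b₆ * x - W.b₈) /
        (4 * x ^ 3 + W.b₂ * x ^ 2 + 2 * W.b₄ * x + W.b₆) := by
  have hE := (Affine.equation_iff (W := W.toAffine) x y).mp h.1
  have hsq : 4 * x ^ 3 + W.b₂ * x ^ 2 + 2 * W.b₄ * x + W.b₆ =
      (y - W.toAffine.negY x y) ^ 2 := by
    simp only [Affine.negY, b₂, b₄, b₆]
    linear_combination (-4) * hE
  have hy : y ≠ W.toAffine.negY x y := by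
    intro h0
    apply hΨ
    rw [hsq, ← h0]
    ring
  have hy' : y - W.toAffine.negY x y ≠ 0 := sub_ne_zero.mpr hy
  refine ⟨_, _, _, by rw [two_nsmul, Affine.Point.add_self_of_Y_ne hy], ?_⟩
  rw [Affine.slope_of_Y_ne rfl hy, eq_div_iff hΨ, hsq]
  simp only [Affine.addX]
  set d := y - W.toAffine.negY x y with hd
  set m := 3 * x ^ 2 + 2 * W.toAffine.a₂ * x + W.toAffine.a₄ - W.toAffine.a₁ * y with hm
  have h1 : ((m / d) ^ 2 + W.toAffine.a₁ * (m / d) - W.toAffine.a₂ - x - x) * d ^ 2 =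
      m ^ 2 + W.toAffine.a₁ * m * d - (W.toAffine.a₂ + 2 * x) * d ^ 2 := by
    field_simp
    ring
  rw [h1, hd, hm]
  simp only [Affine.negY, b₄, b₆, b₈]
  linear_combination (-(W.a₁ ^ 2 + 4 * W.a₂) - 8 * x) * hE

lemma logHeight_pair_zero {F : Type} [Field F] [AdmissibleAbsValues F] (a b : F) :
    logHeight ![a, b, 0] = logHeight₁ (a / b) := by
  rw [logHeight₁_div_eq_logHeight]
  simp

lemma logHeight_zero_zero {F : Type} [Field F] [AdmissibleAbsValues F] (a : F) :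
    logHeight ![a, 0, 0] = 0 := by
  have h1 := logHeight_cons_cons_cons_zero (K := F) (a := a) (b := 0) (x := ![])
  have h2 := logHeight_cons_cons_zero (K := F) (a := a) (x := ![])
  rw [h1, h2]
  exact logHeight_eq_zero_of_subsingleton _

/-- Growth of the height under duplication. -/
lemma dbl_height {F : Type} [Field F] [AdmissibleAbsValues F] (W : WeierstrassCurve F)
    [W.IsElliptic] : ∃ C : ℝ, 0 ≤ C ∧ ∀ x : F,
      4 * logHeight₁ x - C ≤ logHeight ![x ^ 4 - W.b₄ * x ^ 2 - 2 * W.b₆ * x - W.b₈,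
        4 * x ^ 3 + W.b₂ * x ^ 2 + 2 * W.b₄ * x + W.b₆, 0] := by
  obtain ⟨C, hC⟩ := abs_logHeight_addSubMap_sub_two_mul_logHeight_le W
  refine ⟨|C|, abs_nonneg _, fun x => ?_⟩
  have h1 := hC ![x ^ 2, 2 * x, 1]
  have h2 : (fun i => (MvPolynomial.eval ![x ^ 2, 2 * x, 1]) (addSubMap W i)) =
      ![x ^ 4 - W.b₄ * x ^ 2 - 2 * W.b₆ * x - W.b₈,
        4 * x ^ 3 + W.b₂ * x ^ 2 + 2 * W.b₄ * x + W.b₆, 0] := by
    funext i
    fin_cases i
    · simp [addSubMap]; ring
    · simp [addSubMap]; ring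
    · simp [addSubMap]; ring
  rw [h2] at h1
  have h3 : 2 * logHeight₁ x ≤ logHeight ![x ^ 2, 2 * x, 1] := by
    have h4 := logHeight_comp_le (K := F) (![0, 2] : Fin 2 → Fin 3) ![x ^ 2, 2 * x, 1]
    have h5 : (![x ^ 2, 2 * x, 1] ∘ (![0, 2] : Fin 2 → Fin 3)) = ![x ^ 2, 1] := by
      funext i
      fin_cases i <;> simp
    rw [h5, ← logHeight₁_eq_logHeight, logHeight₁_pow] at h4
    exact_mod_cast h4
  have h6 := (abs_le.mp h1).1
  have h7 := le_abs_self C
  linarith

/-- A Weierstrass curve over the algebraic closure is defined over a finite extension. -/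
lemma exists_model {K : Type} [Field K] (W : WeierstrassCurve (AlgebraicClosure K))
    (L : IntermediateField K (AlgebraicClosure K))
    (h : W.a₁ ∈ L ∧ W.a₂ ∈ L ∧ W.a₃ ∈ L ∧ W.a₄ ∈ L ∧ W.a₆ ∈ L) :
    ∃ W' : WeierstrassCurve L, W'.map (algebraMap L (AlgebraicClosure K)) = W :=
  ⟨⟨⟨W.a₁, h.1⟩, ⟨W.a₂, h.2.1⟩, ⟨W.a₃, h.2.2.1⟩, ⟨W.a₄, h.2.2.2.1⟩, ⟨W.a₆, h.2.2.2.2⟩⟩, rfl⟩

lemma isElliptic_of_map {F E : Type} [Field F] [Field E] (f : F →+* E) (W : WeierstrassCurve F)
    (h : (W.map f).IsElliptic) : W.IsElliptic := by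
  have h1 : (W.map f).Δ ≠ 0 := h.isUnit.ne_zero
  rw [WeierstrassCurve.map_Δ] at h1
  exact ⟨isUnit_iff_ne_zero.mpr (fun h0 => h1 (by rw [h0, map_zero]))⟩

section

variable {F E : Type} [Field F] [Field E] [DecidableEq E] [AdmissibleAbsValues F]

lemma step (f : F →+* E) (W : WeierstrassCurve F) [W.IsElliptic] :
    ∃ C : ℝ, 0 ≤ C ∧ ∀ (x : F) (y : E) (h : (W.map f).toAffine.Nonsingular (f x) y),
      C < logHeight₁ x → ∃ (x' : F) (y' : E) (h' : (W.map f).toAffine.Nonsingular (f x') y'),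
        (2 : ℕ) • (Affine.Point.some (f x) y h) = Affine.Point.some (f x') y' h' ∧
        logHeight₁ x < logHeight₁ x' := by
  obtain ⟨C, hC, hd⟩ := dbl_height W
  refine ⟨C, hC, fun x y h hx => ?_⟩
  have h1 := hd x
  set Φ := x ^ 4 - W.b₄ * x ^ 2 - 2 * W.b₆ * x - W.b₈ with hΦ
  set Ψ := 4 * x ^ 3 + W.b₂ * x ^ 2 + 2 * W.b₄ * x + W.b₆ with hΨ
  have hΨ0 : Ψ ≠ 0 := by
    intro h0
    rw [h0, logHeight_zero_zero] at h1
    linarith
  have eΨ : 4 * (f x) ^ 3 + (W.map f).b₂ * (f x) ^ 2 + 2 * (W.map f).b₄ * (f x) + (W.map f).b₆ =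
      f Ψ := by
    rw [hΨ]
    simp only [map_b₂, map_b₄, map_b₆, map_add, map_mul, map_pow, map_ofNat]
  have eΦ : (f x) ^ 4 - (W.map f).b₄ * (f x) ^ 2 - 2 * (W.map f).b₆ * (f x) - (W.map f).b₈ =
      f Φ := by
    rw [hΦ]
    simp only [map_b₄, map_b₆, map_b₈, map_sub, map_mul, map_pow, map_ofNat]
  obtain ⟨x', y', h', h2, h3⟩ := dbl (W.map f) h (by
    rw [eΨ]
    exact (map_ne_zero f).mpr hΨ0)
  rw [eΨ, eΦ, ← map_div₀] at h3
  subst h3
  refine ⟨Φ / Ψ, y', h', h2, ?_⟩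
  rw [logHeight_pair_zero] at h1
  linarith

lemma steps (f : F →+* E) (W : WeierstrassCurve F) [W.IsElliptic] :
    ∃ C : ℝ, 0 ≤ C ∧ ∀ (d : ℕ) (x : F) (y : E) (h : (W.map f).toAffine.Nonsingular (f x) y),
      C < logHeight₁ x → ∃ (x' : F) (y' : E) (h' : (W.map f).toAffine.Nonsingular (f x') y'),
        (2 ^ (d + 1) : ℕ) • (Affine.Point.some (f x) y h) = Affine.Point.some (f x') y' h' ∧
        logHeight₁ x < logHeight₁ x' := by
  obtain ⟨C, hC, hs⟩ := step f W
  refine ⟨C, hC, fun d => ?_⟩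
  induction d with
  | zero => simpa using hs
  | succ d ih =>
    intro x y h hx
    obtain ⟨x', y', h', h1, h2⟩ := ih x y h hx
    obtain ⟨x'', y'', h'', h3, h4⟩ := hs x' y' h' (hx.trans h2)
    refine ⟨x'', y'', h'', ?_, h2.trans h4⟩
    rw [pow_succ (2 : ℕ) (d + 1), mul_comm, mul_nsmul', h1, h3]

end

/-- A point of infinite order. -/
theorem exists_nontorsion {K : Type} [Field K] [NumberField K] [DecidableEq (AlgebraicClosure K)]
    (W : WeierstrassCurve (AlgebraicClosure K)) (hW : W.IsElliptic) :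
    ∃ P : W.toAffine.Point, ∀ k : ℕ, 1 ≤ k → k • P ≠ 0 := by
  obtain ⟨L, hL, hs⟩ := exists_field (K := K) {W.a₁, W.a₂, W.a₃, W.a₄, W.a₆} (by simp)
  obtain ⟨W', hW'⟩ := exists_model W L ⟨hs (by simp), hs (by simp), hs (by simp), hs (by simp),
    hs (by simp)⟩
  subst hW'
  have : NumberField L := NumberField.of_module_finite K L
  have : W'.IsElliptic := isElliptic_of_map _ W' hW
  set f := algebraMap L (AlgebraicClosure K) with hf
  obtain ⟨C, hC, hsteps⟩ := steps f W'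
  -- an element of large height
  obtain ⟨x, hx⟩ : ∃ x : L, C < logHeight₁ x := by
    by_contra hcon
    push Not at hcon
    have h1 := NumberField.finite_setOfPred_logHeight₁_le (K := L) C
    have h2 : {x : L | logHeight₁ x ≤ C} = Set.univ := Set.eq_univ_of_forall hcon
    rw [h2] at h1
    exact Set.infinite_univ h1
  -- a point above it
  obtain ⟨y, hy⟩ : ∃ y : AlgebraicClosure K, (W'.map f).toAffine.Equation (f x) y := by
    have h1 : ∃ y : AlgebraicClosure K, Polynomial.eval y (Polynomial.X ^ 2 +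
        Polynomial.C ((W'.map f).a₁ * f x + (W'.map f).a₃) * Polynomial.X +
        Polynomial.C (-((f x) ^ 3 + (W'.map f).a₂ * (f x) ^ 2 + (W'.map f).a₄ * (f x) +
          (W'.map f).a₆))) = 0 := by
      apply IsAlgClosed.exists_root
      have h2 := Polynomial.degree_quadratic (a := (1 : AlgebraicClosure K))
        (b := (W'.map f).a₁ * f x + (W'.map f).a₃)
        (c := -((f x) ^ 3 + (W'.map f).a₂ * (f x) ^ 2 + (W'.map f).a₄ * (f x) +
          (W'.map f).a₆)) one_ne_zero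
      rw [Polynomial.C_1, one_mul] at h2
      rw [h2]
      norm_num
    obtain ⟨y, hy⟩ := h1
    refine ⟨y, ?_⟩
    rw [Affine.equation_iff]
    simp only [Polynomial.eval_add, Polynomial.eval_mul, Polynomial.eval_pow, Polynomial.eval_X,
      Polynomial.eval_C] at hy
    linear_combination hy
  have hns : (W'.map f).toAffine.Nonsingular (f x) y :=
    (Affine.equation_iff_nonsingular (W := (W'.map f).toAffine)).mp hy
  refine ⟨Affine.Point.some (f x) y hns, fun k hk hk0 => ?_⟩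
  have : NeZero k := ⟨by omega⟩
  obtain ⟨i, j, hij, hm⟩ := Finite.exists_ne_map_eq_of_infinite (fun i : ℕ => (2 ^ i : ZMod k))
  wlog hlt : i < j generalizing i j
  · exact this j i hij.symm hm.symm (by omega)
  have hm' : 2 ^ i ≡ 2 ^ j [MOD k] := by
    rw [← ZMod.natCast_eq_natCast_iff]
    push_cast
    exact hm
  have hsm : (2 ^ i : ℕ) • (Affine.Point.some (f x) y hns) =
      (2 ^ j : ℕ) • (Affine.Point.some (f x) y hns) := by
    have key : ∀ a b : ℕ, a ≡ b [MOD k] → a ≤ b → a • (Affine.Point.some (f x) y hns) =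
        b • (Affine.Point.some (f x) y hns) := by
      intro a b hab hle
      obtain ⟨c, hc⟩ := (Nat.modEq_iff_dvd' hle).mp hab
      have hb : b = a + c * k := by
        rw [mul_comm c k, ← hc]; omega
      rw [hb, add_nsmul, mul_nsmul', hk0, nsmul_zero, add_zero]
    exact key _ _ hm' (Nat.pow_le_pow_right (by norm_num) hlt.le)
  -- compare the heights
  obtain ⟨xi, yi, hi, e1, l1⟩ : ∃ (xi : L) (yi : AlgebraicClosure K)
      (hi : (W'.map f).toAffine.Nonsingular (f xi) yi),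
      (2 ^ i : ℕ) • (Affine.Point.some (f x) y hns) = Affine.Point.some (f xi) yi hi ∧
      C < logHeight₁ xi := by
    rcases i with _ | i
    · exact ⟨x, y, hns, by simp, hx⟩
    · obtain ⟨x', y', h', h1, h2⟩ := hsteps i x y hns hx
      exact ⟨x', y', h', h1, hx.trans h2⟩
  obtain ⟨d, rfl⟩ := Nat.exists_eq_add_of_lt hlt
  obtain ⟨xj, yj, hj, e2, l2⟩ := hsteps d xi yi hi l1
  have e3 : (2 ^ (i + d + 1) : ℕ) • (Affine.Point.some (f x) y hns) =
      (2 ^ (d + 1) : ℕ) • (2 ^ i : ℕ) • (Affine.Point.some (f x) y hns) := by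
    rw [← mul_nsmul', ← pow_add]
    congr 2
    omega
  rw [e3, e1, e2] at hsm
  have hxx : f xi = f xj := by
    injection hsm
  rw [f.injective hxx] at l2
  exact lt_irrefl _ l2

end Pool.Agent.Helper3.A9
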