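import Pool.Agent.Helper16.A9.MWCount
import Pool.Agent.Helper16.A9.Final
import Pool.Agent.Helper3.A9.Asy

/-!
# Varieties with a quasi-finite map to a product of elliptic curves: the upper bound
-/

set_option autoImplicit false

namespace Pool.Agent.Helper3.A9

open Filter Topology MvPolynomial Height
open Pool.Agent.Helper16.A9 Pool.Agent.Helper72.TD

noncomputable section

variable {K : Type} [Field K] {n : ℕ}

/-- The value of the quotient `A / D` of two forms at a point of projective space. -/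
def quo (A D : MvPolynomial (Fin (n + 1)) (AlgebraicClosure K)) (P : PP (AlgebraicClosure K) n) :
    AlgebraicClosure K :=
  eval P.rep A / eval P.rep D

/-- `U₀` has a quasi-finite map to a product of elliptic curves: there are forms `A i`, `B i` and
`D`, all of one degree, such that `D` has no zero on `U₀` and `(x i, y i) = (A i / D, B i / D)` maps
`U₀` to the product of the elliptic curves `y² = (x - e i 0) (x - e i 1) (x - e i 2)`, with at most
`Z` points in each fibre. -/
def ToElliptic (U₀ : Set (PP (AlgebraicClosure K) n)) : Prop :=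
  ∃ (k d Z : ℕ) (e : Fin k → Fin 3 → AlgebraicClosure K)
    (A B : Fin k → MvPolynomial (Fin (n + 1)) (AlgebraicClosure K))
    (D : MvPolynomial (Fin (n + 1)) (AlgebraicClosure K)),
    (∀ i, Function.Injective (e i)) ∧ (∀ i, (A i).IsHomogeneous d ∧ (B i).IsHomogeneous d) ∧
    D.IsHomogeneous d ∧ (∀ P ∈ U₀, eval P.rep D ≠ 0) ∧
    (∀ P ∈ U₀, ∀ i, quo (B i) D P ^ 2 =
      (quo (A i) D P - e i 0) * (quo (A i) D P - e i 1) * (quo (A i) D P - e i 2)) ∧
    ∀ S : Finset (PP (AlgebraicClosure K) n), (∀ P ∈ S, P ∈ U₀) →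
      (∀ P ∈ S, ∀ Q ∈ S, ∀ i, quo (A i) D P = quo (A i) D Q ∧ quo (B i) D P = quo (B i) D Q) →
      S.card ≤ Z

lemma quo_mk {A D : MvPolynomial (Fin (n + 1)) (AlgebraicClosure K)} {d : ℕ}
    (hA : A.IsHomogeneous d) (hD : D.IsHomogeneous d) (v : Fin (n + 1) → AlgebraicClosure K)
    (hv : v ≠ 0) : quo A D (Projectivization.mk _ v hv) = eval v A / eval v D := by
  obtain ⟨a, ha⟩ := Projectivization.exists_smul_eq_mk_rep (AlgebraicClosure K) v hv
  unfold quo
  rw [← ha, Units.smul_def, eval_smul_hom hA, eval_smul_hom hD, mul_div_mul_left]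
  exact pow_ne_zero _ a.ne_zero

lemma eval_lift (L : IntermediateField K (AlgebraicClosure K)) (v : Fin (n + 1) → L)
    (A' : MvPolynomial (Fin (n + 1)) L) :
    eval (lift L v) (map (algebraMap L (AlgebraicClosure K)) A') = (eval v A' : L) := by
  have e := MvPolynomial.eval₂_comp_right (algebraMap L (AlgebraicClosure K)) (RingHom.id L) v A'
  rw [eval_map]
  rw [MvPolynomial.map_id] at e
  exact e.symm

/-- The points of the curve as pairs. -/
lemma pairs_count {L : Type} [Field L] [NumberField L] {e1 e2 e3 : L} (h12 : e1 ≠ e2)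
    (h13 : e1 ≠ e3) (h23 : e2 ≠ e3) : ∃ C D : ℕ, ∀ B : ℝ, 1 ≤ B →
      {p : L × L | p.2 ^ 2 = (p.1 - e1) * (p.1 - e2) * (p.1 - e3) ∧ logHeight₁ p.1 ≤ B}.Finite ∧
      ({p : L × L | p.2 ^ 2 = (p.1 - e1) * (p.1 - e2) * (p.1 - e3) ∧
        logHeight₁ p.1 ≤ B}.ncard : ℝ) ≤ C * B ^ D := by
  classical
  obtain ⟨C, D, h⟩ := mw_count (L := L) h12 h13 h23
  have := isElliptic_curve h12 h13 h23
  let g : (curve e1 e2 e3).toAffine.Point → L × L := fun P =>
    match P with
    | .zero => (0, 0)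
    | .some x y _ => (x, y)
  refine ⟨C, D, fun B hB => ?_⟩
  have hfin := points_finite L (e1 := e1) (e2 := e2) (e3 := e3) B
  have hsub : {p : L × L | p.2 ^ 2 = (p.1 - e1) * (p.1 - e2) * (p.1 - e3) ∧
      logHeight₁ p.1 ≤ B} ⊆ g '' {P | hx P ≤ B} := by
    rintro ⟨x, y⟩ ⟨hxy, hB'⟩
    have heq : (curve e1 e2 e3).toAffine.Equation x y := by
      rw [WeierstrassCurve.Affine.equation_iff]
      unfold curve
      simp only at hxy ⊢
      linear_combination hxy
    have hns : (curve e1 e2 e3).toAffine.Nonsingular x y :=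
      WeierstrassCurve.Affine.equation_iff_nonsingular.1 heq
    exact ⟨.some x y hns, hB', rfl⟩
  refine ⟨(hfin.image g).subset hsub, ?_⟩
  refine le_trans ?_ (h B hB)
  exact_mod_cast (Set.ncard_le_ncard hsub (hfin.image g)).trans (Set.ncard_image_le hfin)

lemma order_one {N : ℝ → ℝ} {c c' C C' : ℝ} (hc : 0 < c) (hc' : 0 < c') (hC : 0 < C)
    (hC' : 0 < C') (hlo : ∀ᶠ T in atTop, c * Real.log T ^ c' ≤ N T)
    (hup : ∀ᶠ T in atTop, N T ≤ C * Real.log T ^ C') :
    Tendsto (fun T : ℝ => Real.log^[2] (N T) / Real.log^[2 + 1] T) atTop (𝓝 1) := by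
  have h1 : ∀ᶠ s in atTop, c * s ^ c' ≤ N (Real.exp s) := by
    filter_upwards [Real.tendsto_exp_atTop.eventually hlo] with s hs
    rwa [Real.log_exp] at hs
  have h2 : ∀ᶠ s in atTop, N (Real.exp s) ≤ C * s ^ C' := by
    filter_upwards [Real.tendsto_exp_atTop.eventually hup] with s hs
    rwa [Real.log_exp] at hs
  have h := (order_zero (N := fun s => N (Real.exp s)) hc hc' hC hC' h1 h2).comp
    Real.tendsto_log_atTop
  refine h.congr' ?_
  filter_upwards [eventually_gt_atTop 0] with T hT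
  simp only [Function.comp_apply, Real.exp_log hT]
  rfl

/-- The upper bound: at most `C (log T) ^ C'` points. -/
theorem upper_elliptic [NumberField K] {X U₀ : Set (PP (AlgebraicClosure K) n)}
    {H : PP (AlgebraicClosure K) n → ℝ} (hH : Comparable X H) (hU : U₀ ⊆ X)
    (hE : ToElliptic U₀) :
    ∃ L₀ : IntermediateField K (AlgebraicClosure K), FiniteDimensional K L₀ ∧
      ∀ L : IntermediateField K (AlgebraicClosure K), L₀ ≤ L → FiniteDimensional K L →
        ∃ C C' : ℝ, 0 < C ∧ 0 < C' ∧ ∀ᶠ T : ℝ in atTop, ∀ U ⊆ U₀,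
          (count U H L T : ℝ) ≤ C * Real.log T ^ C' := by
  classical
  obtain ⟨k, d, Z, e, A, B, D, he, hAB, hD, hD0, heq, hfib⟩ := hE
  obtain ⟨L₀, hL₀, hs⟩ := exists_field (K := K)
    (((Set.range fun p : Fin k × Fin 3 => e p.1 p.2) ∪
      (⋃ i, (((A i).coeffs : Finset _) : Set (AlgebraicClosure K)))) ∪
      ((⋃ i, (((B i).coeffs : Finset _) : Set (AlgebraicClosure K))) ∪
        ((D.coeffs : Finset _) : Set (AlgebraicClosure K))))
    (((Set.finite_range _).union (Set.finite_iUnion fun i => Finset.finite_toSet _)).union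
      ((Set.finite_iUnion fun i => Finset.finite_toSet _).union (Finset.finite_toSet _)))
  refine ⟨L₀, hL₀, fun L hLL hL => ?_⟩
  have : NumberField L := NumberField.of_module_finite K L
  -- models over `L`
  have he' : ∀ i j, ∃ x : L, (x : AlgebraicClosure K) = e i j := fun i j =>
    ⟨⟨e i j, hLL (hs (Or.inl (Or.inl ⟨(i, j), rfl⟩)))⟩, rfl⟩
  choose e' he' using he'
  choose A' hA' using fun i => exists_lift_mv L (A i)
    (fun c hc => hLL (hs (Or.inl (Or.inr (Set.mem_iUnion.2 ⟨i, hc⟩)))))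
  choose B' hB' using fun i => exists_lift_mv L (B i)
    (fun c hc => hLL (hs (Or.inr (Or.inl (Set.mem_iUnion.2 ⟨i, hc⟩)))))
  obtain ⟨D', hD'⟩ := exists_lift_mv L D (fun c hc => hLL (hs (Or.inr (Or.inr hc))))
  have homof : ∀ {p : MvPolynomial (Fin (n + 1)) L},
      (map (algebraMap L (AlgebraicClosure K)) p).IsHomogeneous d → p.IsHomogeneous d := by
    intro p hp a ha
    apply hp
    rw [coeff_map]
    intro h0
    apply ha
    exact (algebraMap L (AlgebraicClosure K)).injective (by rw [h0, map_zero])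
  have hA'h : ∀ i, (A' i).IsHomogeneous d := fun i => homof (by rw [hA' i]; exact (hAB i).1)
  have hD'h : D'.IsHomogeneous d := homof (by rw [hD']; exact hD)
  -- heights of the values
  have hht : ∀ i, ∃ c : ℝ, ∀ v : Fin (n + 1) → L,
      logHeight₁ (eval v (A' i) / eval v D') ≤ d * logHeight v + c := by
    intro i
    have hpd : ∀ j : Fin 2, ((![A' i, D'] : Fin 2 → MvPolynomial (Fin (n + 1)) L) j).IsHomogeneous
        d := by
      intro j
      fin_cases j
      · exact hA'h i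
      · exact hD'h
    obtain ⟨c, hc⟩ := logHeight_eval_le' hpd
    refine ⟨c, fun v => ?_⟩
    rw [logHeight₁_div_eq_logHeight]
    refine le_trans (le_of_eq ?_) ((hc v).trans (le_of_eq (add_comm _ _)))
    congr 1
    funext j
    fin_cases j <;> rfl
  choose c₁ hc₁ using hht
  -- counting on the curves
  have hcurve : ∀ i, ∃ C D : ℕ, ∀ b : ℝ, 1 ≤ b →
      {p : L × L | p.2 ^ 2 = (p.1 - e' i 0) * (p.1 - e' i 1) * (p.1 - e' i 2) ∧
        logHeight₁ p.1 ≤ b}.Finite ∧
      ({p : L × L | p.2 ^ 2 = (p.1 - e' i 0) * (p.1 - e' i 1) * (p.1 - e' i 2) ∧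
        logHeight₁ p.1 ≤ b}.ncard : ℝ) ≤ C * b ^ D := by
    intro i
    have hne : ∀ j j' : Fin 3, j ≠ j' → e' i j ≠ e' i j' := by
      intro j j' hj h
      apply hj
      apply he i
      rw [← he', ← he', h]
    exact pairs_count (hne 0 1 (by decide)) (hne 0 2 (by decide)) (hne 1 2 (by decide))
  choose Cc Dc hcount using hcurve
  -- comparison with `H`
  obtain ⟨C, α, β, hC, hα, hβ, hv⟩ := hH L hL
  set M : ℝ := (d : ℝ) * (2 / α) + ∑ i, |c₁ i| + 1 with hM
  have hM1 : 1 ≤ M := by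
    have : 0 ≤ ∑ i, |c₁ i| := Finset.sum_nonneg fun i _ => abs_nonneg _
    have : 0 ≤ (d : ℝ) * (2 / α) := by positivity
    linarith
  refine ⟨(Z + 1) * ∏ i, ((Cc i : ℝ) * M ^ Dc i + 1), ∑ i, (Dc i : ℝ) + 1, by positivity,
    by positivity, ?_⟩
  filter_upwards [eventually_ge_atTop (Real.exp 1), eventually_ge_atTop C] with T hT1 hTC U hUU
  have hT0 : 0 < T := (Real.exp_pos 1).trans_le hT1
  have hlog : 1 ≤ Real.log T := by
    rw [← Real.log_exp 1]
    exact Real.log_le_log (Real.exp_pos 1) hT1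
  set b : ℝ := M * Real.log T with hb
  have hb1 : 1 ≤ b := one_le_mul_of_one_le_of_one_le hM1 hlog
  by_cases hfin : {P | P ∈ U ∧ P ∈ rat L ∧ H P ≤ T}.Finite
  swap
  · unfold count
    rw [Set.Infinite.ncard hfin, Nat.cast_zero]
    positivity
  -- the map
  have hkey : ∀ P : PP (AlgebraicClosure K) n, P ∈ U ∧ P ∈ rat L ∧ H P ≤ T →
      ∀ i, ∃ p : L × L, (p.1 : AlgebraicClosure K) = quo (A i) D P ∧
        (p.2 : AlgebraicClosure K) = quo (B i) D P ∧
        p.2 ^ 2 = (p.1 - e' i 0) * (p.1 - e' i 1) * (p.1 - e' i 2) ∧ logHeight₁ p.1 ≤ b := by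
    rintro P ⟨hPU, ⟨v, hv0, rfl⟩, hHP⟩ i
    have hPU₀ := hUU hPU
    have e1 : ((eval v (A' i) / eval v D' : L) : AlgebraicClosure K) =
        quo (A i) D (Projectivization.mk _ (lift L v) hv0) := by
      rw [quo_mk (hAB i).1 hD, ← hA' i, ← hD', eval_lift, eval_lift]
      push_cast
      rfl
    have e2 : ((eval v (B' i) / eval v D' : L) : AlgebraicClosure K) =
        quo (B i) D (Projectivization.mk _ (lift L v) hv0) := by
      rw [quo_mk (hAB i).2 hD, ← hB' i, ← hD', eval_lift, eval_lift]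
      push_cast
      rfl
    refine ⟨(eval v (A' i) / eval v D', eval v (B' i) / eval v D'), e1, e2, ?_, ?_⟩
    · have h1 := heq _ hPU₀ i
      rw [← e1, ← e2, ← he', ← he', ← he'] at h1
      exact_mod_cast h1
    · have h1 := (hv v hv0 (hU hPU₀)).1
      have h2 : C⁻¹ * height L hL v ^ α ≤ T := h1.trans hHP
      have h3 : height L hL v ^ α ≤ C * T := by
        rwa [inv_mul_le_iff₀ hC] at h2
      have h4 : (1 : ℝ) ≤ height L hL v := one_le_mulHeight v
      have h5 : Real.log (height L hL v ^ α) ≤ Real.log (C * T) :=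
        Real.log_le_log (Real.rpow_pos_of_pos (by linarith) _) h3
      rw [Real.log_rpow (by linarith), Real.log_mul hC.ne' hT0.ne'] at h5
      have h6 : Real.log C ≤ Real.log T := Real.log_le_log hC hTC
      have h7 : Real.log (height L hL v) = logHeight v := rfl
      have h8 : logHeight v ≤ 2 / α * Real.log T := by
        rw [h7] at h5
        rw [div_mul_eq_mul_div, le_div_iff₀ hα]
        linarith
      have h9 := hc₁ i v
      have h10 : c₁ i ≤ ∑ i, |c₁ i| := (le_abs_self _).trans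
        (Finset.single_le_sum (f := fun i => |c₁ i|) (fun i _ => abs_nonneg _)
          (Finset.mem_univ i))
      have h11 : (d : ℝ) * logHeight v ≤ d * (2 / α * Real.log T) := by gcongr
      have h12 : ∑ i, |c₁ i| ≤ (∑ i, |c₁ i|) * Real.log T := by
        have : 0 ≤ ∑ i, |c₁ i| := Finset.sum_nonneg fun i _ => abs_nonneg _
        nlinarith
      show logHeight₁ (eval v (A' i) / eval v D') ≤ b
      rw [hb, hM]
      nlinarith
  set s : Finset (PP (AlgebraicClosure K) n) := hfin.toFinset with hsdef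
  have hmem : ∀ P ∈ s, P ∈ U ∧ P ∈ rat L ∧ H P ≤ T := fun P hP => hfin.mem_toFinset.1 hP
  let g : PP (AlgebraicClosure K) n → Fin k → L × L := fun P i =>
    if h : P ∈ U ∧ P ∈ rat L ∧ H P ≤ T then (hkey P h i).choose else 0
  have hg : ∀ P (hP : P ∈ s) i, ((g P i).1 : AlgebraicClosure K) = quo (A i) D P ∧
        ((g P i).2 : AlgebraicClosure K) = quo (B i) D P ∧
        (g P i).2 ^ 2 = ((g P i).1 - e' i 0) * ((g P i).1 - e' i 1) * ((g P i).1 - e' i 2) ∧
        logHeight₁ (g P i).1 ≤ b := by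
    intro P hP i
    have h := hmem P hP
    have h1 : g P i = (hkey P h i).choose := by
      simp only [g]
      rw [dif_pos h]
    rw [h1]
    exact (hkey P h i).choose_spec
  have hcard1 : s.card ≤ Z * (s.image g).card := by
    refine Finset.card_le_mul_card_image s Z ?_
    intro w hw
    refine hfib _ ?_ ?_
    · intro P hP
      exact hUU (hmem P (Finset.mem_filter.1 hP).1).1
    · intro P hP Q hQ i
      obtain ⟨hP1, hP2⟩ := Finset.mem_filter.1 hP
      obtain ⟨hQ1, hQ2⟩ := Finset.mem_filter.1 hQ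
      obtain ⟨a1, a2, -, -⟩ := hg P hP1 i
      obtain ⟨b1, b2, -, -⟩ := hg Q hQ1 i
      rw [← a1, ← a2, ← b1, ← b2, hP2, hQ2]
      exact ⟨rfl, rfl⟩
  let F : Fin k → Finset (L × L) := fun i => (hcount i b hb1).1.toFinset
  have hcard2 : (s.image g).card ≤ ∏ i, (F i).card := by
    rw [← Fintype.card_piFinset]
    refine Finset.card_le_card ?_
    intro w hw
    obtain ⟨P, hP, rfl⟩ := Finset.mem_image.1 hw
    rw [Fintype.mem_piFinset]
    intro i
    rw [Set.Finite.mem_toFinset]
    exact ⟨(hg P hP i).2.2.1, (hg P hP i).2.2.2⟩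
  have hF : ∀ i, ((F i).card : ℝ) ≤ ((Cc i : ℝ) * M ^ Dc i + 1) * Real.log T ^ (Dc i : ℝ) := by
    intro i
    have h1 := (hcount i b hb1).2
    rw [Set.ncard_eq_toFinset_card _ (hcount i b hb1).1] at h1
    refine h1.trans ?_
    rw [Real.rpow_natCast, hb, mul_pow, add_mul, ← mul_assoc]
    have : 0 ≤ 1 * Real.log T ^ Dc i := by positivity
    linarith
  have hcount' : (count U H L T : ℝ) = s.card := by
    unfold count
    rw [Set.ncard_eq_toFinset_card _ hfin]
  rw [hcount']
  calc (s.card : ℝ) ≤ (Z * ∏ i, (F i).card : ℕ) := by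
        exact_mod_cast hcard1.trans (Nat.mul_le_mul_left Z hcard2)
    _ = Z * ∏ i, ((F i).card : ℝ) := by push_cast; rfl
    _ ≤ Z * ∏ i, (((Cc i : ℝ) * M ^ Dc i + 1) * Real.log T ^ (Dc i : ℝ)) := by
        gcongr with i _
        exact hF i
    _ = Z * (∏ i, ((Cc i : ℝ) * M ^ Dc i + 1)) * Real.log T ^ (∑ i, (Dc i : ℝ)) := by
        rw [Finset.prod_mul_distrib, Real.rpow_sum_of_pos (by linarith)]
        ring
    _ ≤ (Z + 1) * (∏ i, ((Cc i : ℝ) * M ^ Dc i + 1)) * Real.log T ^ (∑ i, (Dc i : ℝ) + 1) := by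
        have e1 : (Z : ℝ) ≤ Z + 1 := by linarith
        have e2 : Real.log T ^ (∑ i, (Dc i : ℝ)) ≤ Real.log T ^ (∑ i, (Dc i : ℝ) + 1) :=
          Real.rpow_le_rpow_of_exponent_le hlog (by linarith)
        have e3 : 0 ≤ ∏ i, ((Cc i : ℝ) * M ^ Dc i + 1) :=
          Finset.prod_nonneg fun i _ => by positivity
        gcongr

end

end Pool.Agent.Helper3.A9
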