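import Pool.Agent.Helper72.TD.Local

/-!
# Elements of a number field that are even outside a finite set of places
-/

set_option autoImplicit false

namespace Pool.Agent.Helper3.A9

open IsDedekindDomain NumberField WithZero
open Pool.Agent.Helper72.TD

lemma exists_sq_sqf {R : Type} [CommRing R] [IsDedekindDomain R] (I : Ideal R) (hI : I ≠ 0) :
    ∃ J T : Ideal R, I = J ^ 2 * T ∧ Squarefree T := by
  revert hI
  induction I using WfDvdMonoid.induction_on_irreducible with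
  | zero => intro h; exact absurd rfl h
  | unit u hu => intro _; exact ⟨1, u, by rw [one_pow, one_mul], hu.squarefree⟩
  | mul z p hz hp ih =>
    intro _
    obtain ⟨J, T, h1, h2⟩ := ih hz
    by_cases hd : p ∣ T
    · obtain ⟨T', rfl⟩ := hd
      exact ⟨p * J, T', by rw [h1]; ring, h2.squarefree_of_dvd (dvd_mul_left T' p)⟩
    · refine ⟨J, p * T, by rw [h1]; ring, ?_⟩
      rw [squarefree_mul_iff]
      exact ⟨(hp.isRelPrime_iff_not_dvd).mpr hd, hp.squarefree, h2⟩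

lemma dvd_pow_of_primes {R : Type} [CommRing R] [IsDedekindDomain R] (B : Ideal R) (T : Ideal R)
    (hT : T ≠ 0) (h : ∀ P : Ideal R, Irreducible P → P ∣ T → P ∣ B) : ∃ n : ℕ, T ∣ B ^ n := by
  revert hT h
  induction T using WfDvdMonoid.induction_on_irreducible with
  | zero => intro h; exact absurd rfl h
  | unit u hu => intro _ _; exact ⟨0, hu.dvd⟩
  | mul z p hz hp ih =>
    intro _ h
    obtain ⟨n, hn⟩ := ih hz fun P hP hd => h P hP (hd.mul_left p)
    refine ⟨n + 1, ?_⟩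
    rw [pow_succ']
    exact mul_dvd_mul (h p hp (dvd_mul_right p z)) hn

lemma not_even {R L : Type} [CommRing R] [IsDedekindDomain R] [Field L] [Algebra R L]
    [IsFractionRing R L] (v : HeightOneSpectrum R) {a : R} {J T : Ideal R}
    (hJ : J ≠ 0) (hT : Squarefree T) (h : Ideal.span {a} = J ^ 2 * T) (hv : v.asIdeal ∣ T) :
    ¬ EvenAt (v.valuation L) (algebraMap R L a) := by
  rintro ⟨γ, hγ0, hγ⟩
  rw [HeightOneSpectrum.valuation_of_algebraMap] at hγ
  obtain ⟨T', rfl⟩ := hv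
  have hvp : Prime v.asIdeal := v.prime
  have hT' : ¬ v.asIdeal ∣ T' := by
    rintro ⟨T'', rfl⟩
    exact hvp.not_isUnit (hT v.asIdeal ⟨T'', by ring⟩)
  have hfm : FiniteMultiplicity v.asIdeal J := FiniteMultiplicity.of_prime_left hvp hJ
  obtain ⟨J', hJ', hJ''⟩ := hfm.exists_eq_pow_mul_and_not_dvd
  set m := multiplicity v.asIdeal J with hm
  have hX : ¬ v.asIdeal ∣ J' ^ 2 * T' := by
    intro h0
    rcases hvp.dvd_or_dvd h0 with h1 | h1
    · exact hJ'' (hvp.dvd_of_dvd_pow h1)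
    · exact hT' h1
  have hspan : Ideal.span {a} = v.asIdeal ^ (2 * m + 1) * (J' ^ 2 * T') := by
    rw [h, hJ']
    ring
  have h1 : v.intValuation a ≤ exp (-((2 * m + 1 : ℕ) : ℤ)) := by
    rw [HeightOneSpectrum.intValuation_le_pow_iff_dvd, hspan]
    exact dvd_mul_right _ _
  have h2 : ¬ v.intValuation a ≤ exp (-((2 * m + 2 : ℕ) : ℤ)) := by
    rw [HeightOneSpectrum.intValuation_le_pow_iff_dvd, hspan]
    intro h0
    have h3 : v.asIdeal ^ (2 * m + 1) * v.asIdeal ∣ v.asIdeal ^ (2 * m + 1) * (J' ^ 2 * T') := by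
      rw [← pow_succ]
      exact h0
    exact hX ((mul_dvd_mul_iff_left (pow_ne_zero _ hvp.ne_zero)).mp h3)
  rw [hγ, ← exp_log hγ0, ← exp_nsmul, exp_le_exp] at h1 h2
  simp only [nsmul_eq_mul, Nat.cast_ofNat] at h1 h2
  push_cast at h1 h2
  omega

/-- The elements that are even outside a finite set of places form finitely many classes modulo
squares. -/
theorem sel_finite (L : Type) [Field L] [NumberField L] (S : Set (HeightOneSpectrum (𝓞 L)))
    (hS : S.Finite) : ∃ R : Set L, R.Finite ∧ (∀ r ∈ R, r ≠ 0) ∧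
      ∀ d : L, d ≠ 0 → (∀ v ∉ S, EvenAt (v.valuation L) d) →
        ∃ r ∈ R, ∃ s : L, s ≠ 0 ∧ d = r * s ^ 2 := by
  classical
  set B : Ideal (𝓞 L) := ∏ v ∈ hS.toFinset, v.asIdeal with hB
  have hB0 : B ≠ 0 := Finset.prod_ne_zero_iff.mpr fun v _ => v.ne_bot
  let _ : Fintype {T : Ideal (𝓞 L) // T ∣ B} :=
    UniqueFactorizationMonoid.fintypeSubtypeDvd B hB0
  -- units modulo squares
  let Q := (𝓞 L)ˣ ⧸ (powMonoidHom (α := (𝓞 L)ˣ) 2).range
  have hfg : Group.FG (𝓞 L)ˣ := Group.fg_iff_monoid_fg.mpr inferInstance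
  have hQ : Finite Q := by
    apply CommGroup.finite_of_fg_isMulTorsion
    intro q
    rw [isOfFinOrder_iff_pow_eq_one]
    refine ⟨2, by norm_num, ?_⟩
    induction q using QuotientGroup.induction_on with
    | H u =>
      rw [← QuotientGroup.mk_pow, QuotientGroup.eq_one_iff]
      exact ⟨u, rfl⟩
  -- the data
  let Good : ClassGroup (𝓞 L) → {T : Ideal (𝓞 L) // T ∣ B} → 𝓞 L → Prop := fun c T a =>
    a ≠ 0 ∧ ∃ J : nonZeroDivisors (Ideal (𝓞 L)), ClassGroup.mk0 J = c ∧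
      Ideal.span {a} = (J : Ideal (𝓞 L)) ^ 2 * T.1
  let rep : ClassGroup (𝓞 L) → {T : Ideal (𝓞 L) // T ∣ B} → 𝓞 L := fun c T =>
    if h : ∃ a, Good c T a then h.choose else 1
  have hrep0 : ∀ c T, rep c T ≠ 0 := by
    intro c T
    simp only [rep]
    split_ifs with h
    · exact h.choose_spec.1
    · exact one_ne_zero
  refine ⟨Set.range (fun x : ClassGroup (𝓞 L) × {T : Ideal (𝓞 L) // T ∣ B} × Q =>
    (algebraMap (𝓞 L) L (rep x.1 x.2.1)) * (algebraMap (𝓞 L) L (x.2.2.out : (𝓞 L)ˣ))),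
    Set.finite_range _, ?_, ?_⟩
  · rintro _ ⟨x, rfl⟩
    refine mul_ne_zero ?_ ?_
    · exact (map_ne_zero_iff _ (FaithfulSMul.algebraMap_injective (𝓞 L) L)).mpr (hrep0 _ _)
    · exact (map_ne_zero_iff _ (FaithfulSMul.algebraMap_injective (𝓞 L) L)).mpr (Units.ne_zero _)
  · intro d hd hev
    -- an integral representative
    obtain ⟨x, b, hb, hxb⟩ := IsFractionRing.div_surjective (A := 𝓞 L) d
    have hb0 : b ≠ 0 := nonZeroDivisors.ne_zero hb
    have hinj := FaithfulSMul.algebraMap_injective (𝓞 L) L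
    have hbL : algebraMap (𝓞 L) L b ≠ 0 := (map_ne_zero_iff _ hinj).mpr hb0
    have hx0 : x ≠ 0 := by
      rintro rfl
      rw [map_zero, zero_div] at hxb
      exact hd hxb.symm
    obtain ⟨a, ha⟩ : ∃ a : 𝓞 L, a = x * b := ⟨_, rfl⟩
    have ha0 : a ≠ 0 := ha ▸ mul_ne_zero hx0 hb0
    have hda : algebraMap (𝓞 L) L a = d * (algebraMap (𝓞 L) L b) ^ 2 := by
      rw [ha, map_mul, ← hxb]
      field_simp
    have hI : Ideal.span {a} ≠ (0 : Ideal (𝓞 L)) := by
      rw [Ne, Ideal.zero_eq_bot, Ideal.span_singleton_eq_bot]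
      exact ha0
    obtain ⟨J, T, hJT, hTs⟩ := exists_sq_sqf _ hI
    have hJ0 : J ≠ 0 := by
      rintro rfl
      apply hI
      rw [hJT]; simp
    have hT0 : T ≠ 0 := hTs.ne_zero
    have hTB : T ∣ B := by
      obtain ⟨k, hk⟩ := dvd_pow_of_primes B T hT0 (by
        intro P hP hPT
        let v : HeightOneSpectrum (𝓞 L) := ⟨P, Ideal.isPrime_of_prime hP.prime, hP.ne_zero⟩
        have hvS : v ∈ S := by
          by_contra hvS
          refine not_even (L := L) v hJ0 hTs hJT hPT ?_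
          rw [hda]
          exact evenAt_mul (hev v hvS) (evenAt_sq hbL)
        exact Finset.dvd_prod_of_mem (fun v : HeightOneSpectrum (𝓞 L) => v.asIdeal)
          (hS.mem_toFinset.mpr hvS))
      exact hTs.isRadical k B hk
    set c : ClassGroup (𝓞 L) := ClassGroup.mk0 ⟨J, mem_nonZeroDivisors_iff_ne_zero.mpr hJ0⟩ with hc
    have hG : ∃ a, Good c ⟨T, hTB⟩ a := ⟨a, ha0, ⟨J, mem_nonZeroDivisors_iff_ne_zero.mpr hJ0⟩,
      rfl, hJT⟩
    have hr : rep c ⟨T, hTB⟩ = hG.choose := by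
      simp only [rep]
      rw [dif_pos hG]
    obtain ⟨ha'0, J', hJ'c, hJ'T⟩ := hG.choose_spec
    rw [← hr] at ha'0 hJ'T
    set a' := rep c ⟨T, hTB⟩ with ha'
    obtain ⟨y, z, hy, hz, hyz⟩ := (ClassGroup.mk0_eq_mk0_iff (I := ⟨J,
      mem_nonZeroDivisors_iff_ne_zero.mpr hJ0⟩) (J := J')).mp hJ'c.symm
    have hass : Associated (y ^ 2 * a) (z ^ 2 * a') := by
      rw [← Ideal.span_singleton_eq_span_singleton, ← Ideal.span_singleton_mul_span_singleton,
        ← Ideal.span_singleton_mul_span_singleton, ← Ideal.span_singleton_pow,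
        ← Ideal.span_singleton_pow, hJT, hJ'T]
      calc Ideal.span {y} ^ 2 * (J ^ 2 * T) = (Ideal.span {y} * J) ^ 2 * T := by ring
        _ = (Ideal.span {z} * (J' : Ideal (𝓞 L))) ^ 2 * T := by rw [hyz]
        _ = _ := by ring
    obtain ⟨u, hu⟩ := hass
    -- the unit modulo squares
    set q : Q := QuotientGroup.mk u⁻¹ with hq
    have hqo : (QuotientGroup.mk (q.out : (𝓞 L)ˣ) : Q) = QuotientGroup.mk u⁻¹ := by
      rw [QuotientGroup.out_eq', hq]
    rw [QuotientGroup.eq] at hqo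
    obtain ⟨t, ht⟩ := hqo
    have ht' : (q.out : (𝓞 L)ˣ) * t ^ 2 = u⁻¹ := by
      have : t ^ 2 = (q.out : (𝓞 L)ˣ)⁻¹ * u⁻¹ := ht
      rw [this, mul_inv_cancel_left]
    refine ⟨_, ⟨(c, ⟨T, hTB⟩, q), rfl⟩, algebraMap (𝓞 L) L z * algebraMap (𝓞 L) L (t : (𝓞 L)ˣ) /
      (algebraMap (𝓞 L) L y * algebraMap (𝓞 L) L b), ?_, ?_⟩
    · have e1 : algebraMap (𝓞 L) L z ≠ 0 := (map_ne_zero_iff _ hinj).mpr hz
      have e2 : algebraMap (𝓞 L) L y ≠ 0 := (map_ne_zero_iff _ hinj).mpr hy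
      have e3 : algebraMap (𝓞 L) L (t : (𝓞 L)ˣ) ≠ 0 :=
        (map_ne_zero_iff _ hinj).mpr (Units.ne_zero _)
      positivity
    · have e2 : algebraMap (𝓞 L) L y ≠ 0 := (map_ne_zero_iff _ hinj).mpr hy
      have e3 : (y ^ 2 * a : 𝓞 L) = z ^ 2 * a' * (((q.out : (𝓞 L)ˣ) : 𝓞 L) *
          ((t : (𝓞 L)ˣ) : 𝓞 L) ^ 2) := by
        have e5 : (((q.out : (𝓞 L)ˣ) : 𝓞 L) * ((t : (𝓞 L)ˣ) : 𝓞 L) ^ 2) =
            ((u⁻¹ : (𝓞 L)ˣ) : 𝓞 L) := by
          rw [← ht', Units.val_mul, Units.val_pow_eq_pow_val]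
        rw [e5, ← hu, mul_assoc, Units.mul_inv, mul_one]
      have e4 := congrArg (algebraMap (𝓞 L) L) e3
      simp only [map_mul, map_pow] at e4
      rw [hda] at e4
      show d = algebraMap (𝓞 L) L a' * algebraMap (𝓞 L) L (q.out : (𝓞 L)ˣ) * _ ^ 2
      rw [div_pow, mul_pow, mul_pow]
      field_simp
      linear_combination e4

end Pool.Agent.Helper3.A9
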