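import Pool.Agent.Helper3.A9.Curve

/-!
# Polynomial functions on the line and on a Weierstrass curve
-/

set_option autoImplicit false

namespace Pool.Agent.Helper3.A9

open Polynomial

/-- Polynomial functions on `F`. -/
noncomputable def polyFun (F : Type) [Field F] : Subalgebra F (F → F) :=
  (Polynomial.aeval (R := F) (id : F → F)).range

lemma mem_polyFun {F : Type} [Field F] (p : F[X]) : (fun t => p.eval t) ∈ polyFun F := by
  refine ⟨p, ?_⟩
  funext t
  simp only [AlgHom.toRingHom_eq_coe, RingHom.coe_coe]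
  rw [← Polynomial.coe_aeval_eq_eval]
  simp

lemma exists_of_mem_polyFun {F : Type} [Field F] {g : F → F} (hg : g ∈ polyFun F) :
    ∃ p : F[X], g = fun t => p.eval t := by
  obtain ⟨p, rfl⟩ := hg
  refine ⟨p, ?_⟩
  funext t
  simp only [AlgHom.toRingHom_eq_coe, RingHom.coe_coe]
  rw [← Polynomial.coe_aeval_eq_eval]
  have := Polynomial.aeval_algHom_apply (Pi.evalAlgHom F (fun _ : F => F) t) (id : F → F) p
  simpa using this.symm

lemma zeros_poly {F : Type} [Field F] (p : F[X]) (hp : p ≠ 0) :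
    {t | p.eval t = 0}.Finite ∧ {t | p.eval t = 0}.ncard ≤ p.natDegree := by
  classical
  have h : {t | p.eval t = 0} = (p.roots.toFinset : Set F) := by
    ext t
    simp [hp]
  rw [h]
  refine ⟨Finset.finite_toSet _, ?_⟩
  rw [Set.ncard_coe_finset]
  exact (Multiset.toFinset_card_le _).trans (Polynomial.card_roots' p)

lemma tame_polyFun (F : Type) [Field F] : Tame (polyFun F) where
  fin := by
    intro g hg hne
    obtain ⟨p, rfl⟩ := exists_of_mem_polyFun hg
    refine (zeros_poly p ?_).1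
    rintro rfl
    exact hne (by funext t; simp)
  bdd := by
    intro g hg h hh
    obtain ⟨p, rfl⟩ := exists_of_mem_polyFun hg
    obtain ⟨q, rfl⟩ := exists_of_mem_polyFun hh
    refine ⟨max p.natDegree q.natDegree, fun c d hne => ?_⟩
    have h1 : (c • (fun t => p.eval t) + d • (fun t => q.eval t) : F → F) =
        fun t => (C c * p + C d * q).eval t := by
      funext t
      simp
    rw [h1] at hne ⊢
    have hp : C c * p + C d * q ≠ 0 := by
      intro h0
      rw [h0] at hne
      exact hne (by funext t; simp)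
    refine (zeros_poly _ hp).2.trans ?_
    exact (Polynomial.natDegree_add_le _ _).trans
      (max_le_max (Polynomial.natDegree_C_mul_le _ _) (Polynomial.natDegree_C_mul_le _ _))

/-- Regular functions on the affine part of a Weierstrass curve. -/
noncomputable def ellFun {F : Type} [Field F] (W : WeierstrassCurve F) :
    Subalgebra F (Aff W → F) where
  carrier := {g | ∃ p q : F[X], g = fun P => p.eval P.1.1 + q.eval P.1.1 * P.1.2}
  mul_mem' := by
    rintro _ _ ⟨p, q, rfl⟩ ⟨p', q', rfl⟩
    refine ⟨p * p' + q * q' * (X ^ 3 + C W.a₂ * X ^ 2 + C W.a₄ * X + C W.a₆),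
      p * q' + p' * q - q * q' * (C W.a₁ * X + C W.a₃), ?_⟩
    funext P
    have hP := (WeierstrassCurve.Affine.equation_iff (W := W.toAffine) P.1.1 P.1.2).mp P.2
    simp only [Pi.mul_apply, eval_add, eval_mul, eval_sub, eval_pow, eval_X, eval_C]
    linear_combination (q.eval P.1.1 * q'.eval P.1.1) * hP
  add_mem' := by
    rintro _ _ ⟨p, q, rfl⟩ ⟨p', q', rfl⟩
    refine ⟨p + p', q + q', ?_⟩
    funext P
    simp only [Pi.add_apply, eval_add]
    ring
  algebraMap_mem' := by
    intro r
    refine ⟨C r, 0, ?_⟩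
    funext P
    simp

lemma mem_ellFun {F : Type} [Field F] (W : WeierstrassCurve F) (p q : F[X]) :
    (fun P : Aff W => p.eval P.1.1 + q.eval P.1.1 * P.1.2) ∈ ellFun W := ⟨p, q, rfl⟩

/-- The norm polynomial. -/
noncomputable def nrm {F : Type} [Field F] (W : WeierstrassCurve F) (p q : F[X]) : F[X] :=
  p ^ 2 - p * q * (C W.a₁ * X + C W.a₃) - q ^ 2 * (X ^ 3 + C W.a₂ * X ^ 2 + C W.a₄ * X + C W.a₆)

lemma degree_nrm {F : Type} [Field F] (W : WeierstrassCurve F) (p q : F[X]) :
    (nrm W p q).degree = max (2 • p.degree) (2 • q.degree + 3) := by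
  have h1 := WeierstrassCurve.Affine.CoordinateRing.norm_smul_basis (W' := W.toAffine) p q
  have h2 := WeierstrassCurve.Affine.CoordinateRing.degree_norm_smul_basis (W' := W.toAffine) p q
  rw [h1] at h2
  exact h2

lemma nrm_ne_zero {F : Type} [Field F] (W : WeierstrassCurve F) (p q : F[X])
    (h : p ≠ 0 ∨ q ≠ 0) : nrm W p q ≠ 0 := by
  intro h0
  have h1 := degree_nrm W p q
  rw [h0, degree_zero] at h1
  rcases h with hp | hq
  · have h2 : 2 • p.degree ≤ ⊥ := h1 ▸ le_max_left _ _
    rw [le_bot_iff] at h2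
    rw [Polynomial.degree_eq_natDegree hp, two_nsmul, ← Nat.cast_add] at h2
    exact WithBot.natCast_ne_bot _ h2
  · have h2 : 2 • q.degree + 3 ≤ ⊥ := h1 ▸ le_max_right _ _
    rw [le_bot_iff] at h2
    rw [Polynomial.degree_eq_natDegree hq, two_nsmul, ← Nat.cast_add,
      show (3 : WithBot ℕ) = ((3 : ℕ) : WithBot ℕ) from rfl, ← Nat.cast_add] at h2
    exact WithBot.natCast_ne_bot _ h2

lemma natDegree_nrm_le {F : Type} [Field F] (W : WeierstrassCurve F) (p q : F[X]) (D : ℕ)
    (hp : p.natDegree ≤ D) (hq : q.natDegree ≤ D) : (nrm W p q).natDegree ≤ 2 * D + 3 := by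
  rw [Polynomial.natDegree_le_iff_degree_le, degree_nrm]
  have hp' : p.degree ≤ D := Polynomial.natDegree_le_iff_degree_le.mp hp
  have hq' : q.degree ≤ D := Polynomial.natDegree_le_iff_degree_le.mp hq
  refine max_le ?_ ?_
  · calc 2 • p.degree ≤ 2 • (D : WithBot ℕ) := by gcongr
      _ = ((D + D : ℕ) : WithBot ℕ) := by rw [two_nsmul, ← Nat.cast_add]
      _ ≤ ((2 * D + 3 : ℕ) : WithBot ℕ) := by
        exact_mod_cast (by omega : D + D ≤ 2 * D + 3)
  · calc 2 • q.degree + 3 ≤ 2 • (D : WithBot ℕ) + 3 := by gcongr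
      _ = ((D + D + 3 : ℕ) : WithBot ℕ) := by
        rw [two_nsmul, ← Nat.cast_add, show (3 : WithBot ℕ) = ((3 : ℕ) : WithBot ℕ) from rfl,
          ← Nat.cast_add]
      _ ≤ ((2 * D + 3 : ℕ) : WithBot ℕ) := by
        exact_mod_cast (by omega : D + D + 3 ≤ 2 * D + 3)

lemma zeros_ell {F : Type} [Field F] (W : WeierstrassCurve F) (p q : F[X]) (D : ℕ)
    (hp : p.natDegree ≤ D) (hq : q.natDegree ≤ D)
    (hne : (fun P : Aff W => p.eval P.1.1 + q.eval P.1.1 * P.1.2) ≠ 0) :
    {P : Aff W | p.eval P.1.1 + q.eval P.1.1 * P.1.2 = 0}.Finite ∧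
    {P : Aff W | p.eval P.1.1 + q.eval P.1.1 * P.1.2 = 0}.ncard ≤ 2 * (2 * D + 3) := by
  classical
  have h0 : p ≠ 0 ∨ q ≠ 0 := by
    by_contra hcon
    push Not at hcon
    apply hne
    funext P
    simp [hcon.1, hcon.2]
  have hN := nrm_ne_zero W p q h0
  let Q : F → F[X] := fun x => X ^ 2 + C (W.a₁ * x + W.a₃) * X +
    C (-(x ^ 3 + W.a₂ * x ^ 2 + W.a₄ * x + W.a₆))
  have hQ : ∀ x, Q x ≠ 0 ∧ (Q x).natDegree ≤ 2 := by
    intro x
    have h1 : (Q x).natDegree = 2 := by
      have := Polynomial.natDegree_quadratic (a := (1 : F)) (b := W.a₁ * x + W.a₃)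
        (c := -(x ^ 3 + W.a₂ * x ^ 2 + W.a₄ * x + W.a₆)) one_ne_zero
      simpa [Q] using this
    refine ⟨?_, h1.le⟩
    intro h2
    rw [h2] at h1
    simp at h1
  let B : Finset (F × F) := (nrm W p q).roots.toFinset.biUnion
    (fun x => (Q x).roots.toFinset.image (fun y => (x, y)))
  have hB : B.card ≤ 2 * (2 * D + 3) := by
    calc B.card ≤ ∑ x ∈ (nrm W p q).roots.toFinset,
          ((Q x).roots.toFinset.image (fun y => (x, y))).card := Finset.card_biUnion_le
      _ ≤ ∑ x ∈ (nrm W p q).roots.toFinset, 2 := by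
          refine Finset.sum_le_sum fun x _ => ?_
          refine Finset.card_image_le.trans ((Multiset.toFinset_card_le _).trans ?_)
          exact (Polynomial.card_roots' _).trans (hQ x).2
      _ = (nrm W p q).roots.toFinset.card * 2 := by simp
      _ ≤ (2 * D + 3) * 2 := by
          gcongr
          exact (Multiset.toFinset_card_le _).trans ((Polynomial.card_roots' _).trans
            (natDegree_nrm_le W p q D hp hq))
      _ = _ := by ring
  have hmaps : ∀ P ∈ {P : Aff W | p.eval P.1.1 + q.eval P.1.1 * P.1.2 = 0}, P.1 ∈ (B : Set (F × F)) := by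
    intro P hP
    have hP' : p.eval P.1.1 + q.eval P.1.1 * P.1.2 = 0 := hP
    have hE := (WeierstrassCurve.Affine.equation_iff (W := W.toAffine) P.1.1 P.1.2).mp P.2
    rw [Finset.mem_coe, Finset.mem_biUnion]
    refine ⟨P.1.1, ?_, ?_⟩
    · rw [Multiset.mem_toFinset, mem_roots hN]
      simp only [IsRoot, nrm, eval_sub, eval_pow, eval_mul, eval_add, eval_C, eval_X]
      linear_combination (p.eval P.1.1 - q.eval P.1.1 * P.1.2 -
        q.eval P.1.1 * (W.a₁ * P.1.1 + W.a₃)) * hP' + (q.eval P.1.1) ^ 2 * hE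
    · rw [Finset.mem_image]
      refine ⟨P.1.2, ?_, rfl⟩
      rw [Multiset.mem_toFinset, mem_roots (hQ _).1]
      simp only [IsRoot, Q, eval_pow, eval_mul, eval_add, eval_C, eval_X]
      linear_combination hE
  have hfin : {P : Aff W | p.eval P.1.1 + q.eval P.1.1 * P.1.2 = 0}.Finite :=
    Set.Finite.of_finite_image (f := Subtype.val)
      ((Finset.finite_toSet B).subset (by rintro _ ⟨P, hP, rfl⟩; exact hmaps P hP))
      Subtype.val_injective.injOn
  refine ⟨hfin, ?_⟩
  rw [Set.ncard_eq_toFinset_card _ hfin]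
  refine le_trans ?_ hB
  refine Finset.card_le_card_of_injOn Subtype.val ?_ Subtype.val_injective.injOn
  intro P hP
  exact hmaps P (by simpa using hP)

lemma tame_ellFun {F : Type} [Field F] (W : WeierstrassCurve F) : Tame (ellFun W) where
  fin := by
    rintro _ ⟨p, q, rfl⟩ hne
    exact (zeros_ell W p q (max p.natDegree q.natDegree) (le_max_left _ _) (le_max_right _ _)
      hne).1
  bdd := by
    rintro _ ⟨p, q, rfl⟩ _ ⟨p', q', rfl⟩
    refine ⟨2 * (2 * (max (max p.natDegree p'.natDegree) (max q.natDegree q'.natDegree)) + 3),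
      fun c d hne => ?_⟩
    have h1 : (c • (fun P : Aff W => p.eval P.1.1 + q.eval P.1.1 * P.1.2) +
        d • (fun P : Aff W => p'.eval P.1.1 + q'.eval P.1.1 * P.1.2) : Aff W → F) =
        fun P : Aff W => (C c * p + C d * p').eval P.1.1 +
          (C c * q + C d * q').eval P.1.1 * P.1.2 := by
      funext P
      simp only [Pi.add_apply, Pi.smul_apply, smul_eq_mul, eval_add, eval_mul, eval_C]
      ring
    rw [h1] at hne ⊢
    refine (zeros_ell W _ _ _ ?_ ?_ hne).2
    · exact ((Polynomial.natDegree_add_le _ _).trans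
        (max_le_max (Polynomial.natDegree_C_mul_le _ _)
          (Polynomial.natDegree_C_mul_le _ _))).trans (le_max_left _ _)
    · exact ((Polynomial.natDegree_add_le _ _).trans
        (max_le_max (Polynomial.natDegree_C_mul_le _ _)
          (Polynomial.natDegree_C_mul_le _ _))).trans (le_max_right _ _)

end Pool.Agent.Helper3.A9
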