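import Pool.Agent.Helper3.A9.WeakMW
import Pool.Agent.Helper3.A9.NonTors
import Pool.Agent.Helper16.A9.Growth

/-!
# The number of points of bounded height of an elliptic curve: upper bound
-/

set_option autoImplicit false

namespace Pool.Agent.Helper3.A9

open Height WeierstrassCurve
open Pool.Agent.Helper72.TD

/-- A counting function with `N B ≤ r N (B / 2 + C)` is bounded by a power. -/
lemma tree_growth {N : ℝ → ℝ} (hmono : Monotone N) (h0 : ∀ B, 0 ≤ N B) {r C : ℝ} (hr : 1 ≤ r)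
    (hC : 0 ≤ C) (h : ∀ B, N B ≤ r * N (B / 2 + C)) :
    ∃ D c : ℝ, 0 < D ∧ 0 < c ∧ ∀ B : ℝ, 1 ≤ B → N B ≤ D * B ^ c := by
  set B₀ : ℝ := 4 * C + 1 with hB₀
  have hB₀1 : 1 ≤ B₀ := by rw [hB₀]; linarith
  have key : ∀ j : ℕ, ∀ B : ℝ, B ≤ B₀ * (4 / 3) ^ j → N B ≤ r ^ j * N B₀ := by
    intro j
    induction j with
    | zero =>
      intro B hB
      simp only [pow_zero, mul_one, one_mul] at hB ⊢
      exact hmono hB
    | succ j ih =>
      intro B hB
      have hrj : 1 ≤ r ^ j := one_le_pow₀ hr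
      by_cases hle : B ≤ B₀
      · calc N B ≤ N B₀ := hmono hle
          _ = 1 * N B₀ := by ring
          _ ≤ r ^ (j + 1) * N B₀ := by
            gcongr
            · exact h0 _
            · exact one_le_pow₀ hr
      · push Not at hle
        have h1 : B / 2 + C ≤ B₀ * (4 / 3) ^ j := by
          have h2 : B / 2 + C ≤ 3 / 4 * B := by linarith
          rw [pow_succ] at hB
          linarith
        calc N B ≤ r * N (B / 2 + C) := h B
          _ ≤ r * (r ^ j * N B₀) := by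
            gcongr
            exact ih _ h1
          _ = _ := by ring
  set l : ℝ := Real.log (4 / 3) with hl
  have hl0 : 0 < l := Real.log_pos (by norm_num)
  refine ⟨r * (N B₀ + 1), Real.log r / l + 1, ?_, ?_, fun B hB => ?_⟩
  · have := h0 B₀
    positivity
  · have := Real.log_nonneg hr
    positivity
  · have hB0 : 0 < B := by linarith
    have hlB : 0 ≤ Real.log B := Real.log_nonneg hB
    set j : ℕ := ⌈Real.log B / l⌉₊ with hj
    have h1 : B ≤ B₀ * (4 / 3) ^ j := by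
      have h2 : Real.log B / l ≤ j := Nat.le_ceil _
      rw [div_le_iff₀ hl0] at h2
      have h3 : B ≤ (4 / 3 : ℝ) ^ j := by
        rw [← Real.exp_log hB0, ← Real.exp_log (show (0 : ℝ) < (4 / 3) ^ j by positivity),
          Real.log_pow]
        exact Real.exp_le_exp.mpr h2
      calc B ≤ (4 / 3 : ℝ) ^ j := h3
        _ = 1 * (4 / 3 : ℝ) ^ j := by ring
        _ ≤ B₀ * (4 / 3) ^ j := by gcongr
    have h2 := key j B h1
    have h3 : (j : ℝ) ≤ Real.log B / l + 1 := (Nat.ceil_lt_add_one (by positivity)).le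
    have hr0 : 0 < r := by linarith
    have h4 : r ^ j ≤ r * B ^ (Real.log r / l) := by
      have e1 : r * B ^ (Real.log r / l) = Real.exp (Real.log r * (Real.log B / l + 1)) := by
        rw [Real.rpow_def_of_pos hB0, mul_add, mul_one, Real.exp_add, Real.exp_log hr0]
        rw [mul_comm r]
        congr 2
        ring
      have e2 : r ^ j = Real.exp (Real.log r * j) := by
        rw [mul_comm, Real.exp_nat_mul, Real.exp_log hr0]
      rw [e1, e2]
      apply Real.exp_le_exp.mpr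
      exact mul_le_mul_of_nonneg_left h3 (Real.log_nonneg hr)
    have h5 : B ^ (Real.log r / l) ≤ B ^ (Real.log r / l + 1) :=
      Real.rpow_le_rpow_of_exponent_le hB (by linarith)
    have := h0 B₀
    calc N B ≤ r ^ j * N B₀ := h2
      _ ≤ (r * B ^ (Real.log r / l)) * (N B₀ + 1) := by
        gcongr
        linarith
      _ ≤ (r * B ^ (Real.log r / l + 1)) * (N B₀ + 1) := by gcongr
      _ = _ := by ring

section

variable {L : Type} [Field L] [NumberField L] [DecidableEq L] {e1 e2 e3 : L}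

/-- The height of the `x`-coordinate. -/
noncomputable def hx : (curve e1 e2 e3).toAffine.Point → ℝ
  | .zero => 0
  | .some x _ _ => logHeight₁ x

omit [DecidableEq L] in
lemma hx_nonneg (P : (curve e1 e2 e3).toAffine.Point) : 0 ≤ hx P := by
  rcases P with _ | ⟨x, y, h⟩
  · exact le_rfl
  · exact zero_le_logHeight₁ x

omit [DecidableEq L] in
lemma hx_le_ht (P : (curve e1 e2 e3).toAffine.Point) : hx P ≤ Pool.Agent.Helper16.A9.ht P := by
  rcases P with _ | ⟨x, y, h⟩
  · exact le_rfl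
  · have := zero_le_logHeight₁ y
    change logHeight₁ x ≤ logHeight₁ x + logHeight₁ y
    linarith

omit [DecidableEq L] in
lemma ht_le_hx : ∃ c : ℝ, 1 ≤ c ∧ ∀ P : (curve e1 e2 e3).toAffine.Point,
    Pool.Agent.Helper16.A9.ht P ≤ c * (hx P + 1) := by
  obtain ⟨C, D, hC, h⟩ := poly_le ((Polynomial.X - Polynomial.C e1) *
    (Polynomial.X - Polynomial.C e2) * (Polynomial.X - Polynomial.C e3))
  have hC0 : 0 < C := by linarith
  refine ⟨1 + Real.log C + D, ?_, ?_⟩
  · have := Real.log_nonneg hC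
    have : (0 : ℝ) ≤ D := Nat.cast_nonneg D
    linarith
  · intro P
    have hlC := Real.log_nonneg hC
    have hD0 : (0 : ℝ) ≤ D := Nat.cast_nonneg D
    rcases P with _ | ⟨x, y, hns⟩
    · change (0 : ℝ) ≤ (1 + Real.log C + D) * (0 + 1)
      positivity
    · change logHeight₁ x + logHeight₁ y ≤ (1 + Real.log C + D) * (logHeight₁ x + 1)
      have hE := equation_of hns
      have h1 : logHeight₁ (y ^ 2) ≤ Real.log C + D * logHeight₁ x := by
        have h2 := h x
        simp only [Polynomial.eval_mul, Polynomial.eval_sub, Polynomial.eval_X,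
          Polynomial.eval_C] at h2
        rw [← hE] at h2
        have h3 := Real.log_le_log (mulHeight₁_pos _) h2
        rw [Real.log_mul hC0.ne' (pow_pos (mulHeight₁_pos x) D).ne', Real.log_pow] at h3
        exact h3
      rw [logHeight₁_pow] at h1
      have h4 := zero_le_logHeight₁ x
      have h5 := zero_le_logHeight₁ y
      push_cast at h1
      nlinarith

lemma hx_dbl (h12 : e1 ≠ e2) (h13 : e1 ≠ e3) (h23 : e2 ≠ e3) :
    ∃ C : ℝ, 0 ≤ C ∧ ∀ P : (curve e1 e2 e3).toAffine.Point, 4 * hx P - C ≤ hx (P + P) := by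
  have hell : (curve e1 e2 e3).IsElliptic := by
    constructor
    rw [isUnit_iff_ne_zero]
    have e : (curve e1 e2 e3).Δ = 16 * ((e1 - e2) * (e1 - e3) * (e2 - e3)) ^ 2 := by
      simp only [WeierstrassCurve.Δ, WeierstrassCurve.b₂, WeierstrassCurve.b₄,
        WeierstrassCurve.b₆, WeierstrassCurve.b₈, curve]
      ring
    rw [e]
    have a := sub_ne_zero.mpr h12
    have b := sub_ne_zero.mpr h13
    have c := sub_ne_zero.mpr h23
    have : (16 : L) ≠ 0 := by norm_num
    positivity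
  obtain ⟨C, hC, hd⟩ := dbl_height (curve e1 e2 e3)
  refine ⟨C, hC, fun P => ?_⟩
  rcases P with _ | ⟨x, y, h⟩
  · have h1 := hx_nonneg (Affine.Point.zero + Affine.Point.zero :
      (curve e1 e2 e3).toAffine.Point)
    change 4 * (0 : ℝ) - C ≤ _
    linarith
  · have h1 := hd x
    change 4 * logHeight₁ x - C ≤ _
    by_cases hΨ : 4 * x ^ 3 + (curve e1 e2 e3).b₂ * x ^ 2 + 2 * (curve e1 e2 e3).b₄ * x +
        (curve e1 e2 e3).b₆ = 0
    · rw [hΨ, logHeight_zero_zero] at h1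
      exact h1.trans (hx_nonneg _)
    · obtain ⟨x', y', h', h2, h3⟩ := dbl (curve e1 e2 e3) h hΨ
      rw [← two_nsmul, h2]
      change _ ≤ logHeight₁ x'
      rw [h3]
      rwa [logHeight_pair_zero] at h1

lemma hx_pow (h12 : e1 ≠ e2) (h13 : e1 ≠ e3) (h23 : e2 ≠ e3) (k : ℕ) :
    ∃ C : ℝ, 0 ≤ C ∧ ∀ P : (curve e1 e2 e3).toAffine.Point,
      4 ^ k * hx P - C ≤ hx ((2 ^ k : ℕ) • P) := by
  obtain ⟨C₀, hC₀, hd⟩ := hx_dbl h12 h13 h23
  induction k with
  | zero => exact ⟨0, le_rfl, fun P => by simp⟩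
  | succ k ih =>
    obtain ⟨C, hC, h⟩ := ih
    refine ⟨4 * C + C₀, by positivity, fun P => ?_⟩
    have h1 := h P
    have h2 := hd ((2 ^ k : ℕ) • P)
    have e : (2 ^ (k + 1) : ℕ) • P = (2 ^ k : ℕ) • P + (2 ^ k : ℕ) • P := by
      rw [pow_succ, mul_two, add_nsmul]
    rw [e, pow_succ]
    linarith

lemma reps (h12 : e1 ≠ e2) (h13 : e1 ≠ e3) (h23 : e2 ≠ e3) (k : ℕ) :
    ∃ R : Set (curve e1 e2 e3).toAffine.Point, R.Finite ∧ R.Nonempty ∧
      ∀ P, ∃ Q ∈ R, ∃ P', P = (2 ^ k : ℕ) • P' + Q := by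
  induction k with
  | zero => exact ⟨{0}, Set.finite_singleton _, Set.singleton_nonempty _,
      fun P => ⟨0, rfl, P, by simp⟩⟩
  | succ k ih =>
    obtain ⟨R, hR, hRn, h⟩ := ih
    obtain ⟨R₁, hR₁, hR₁n, h₁⟩ := weak_mw L h12 h13 h23
    refine ⟨(fun r : (curve e1 e2 e3).toAffine.Point × (curve e1 e2 e3).toAffine.Point =>
      (2 ^ k : ℕ) • r.1 + r.2) '' (R₁ ×ˢ R), (hR₁.prod hR).image _,
      (hR₁n.prod hRn).image _, fun P => ?_⟩
    obtain ⟨Q, hQ, P', rfl⟩ := h P
    obtain ⟨Q', hQ', P'', rfl⟩ := h₁ P'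
    refine ⟨_, ⟨(Q', Q), ⟨hQ', hQ⟩, rfl⟩, P'', ?_⟩
    rw [pow_succ, mul_two]
    simp only [nsmul_add, add_nsmul]
    abel

omit [DecidableEq L] in
lemma finite_sublevel (B : ℝ) : {P : (curve e1 e2 e3).toAffine.Point | hx P ≤ B}.Finite := by
  have hfin := NumberField.finite_setOfPred_logHeight₁_le (K := L) B
  have hfib : ∀ x : L, {y : L | y ^ 2 = (x - e1) * (x - e2) * (x - e3)}.Finite := by
    intro x
    classical
    have h1 : (Polynomial.X ^ 2 - Polynomial.C ((x - e1) * (x - e2) * (x - e3)) :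
        Polynomial L) ≠ 0 := Polynomial.X_pow_sub_C_ne_zero (by norm_num) _
    refine ((Polynomial.X ^ 2 - Polynomial.C ((x - e1) * (x - e2) * (x - e3)) :
      Polynomial L).roots.toFinset.finite_toSet).subset ?_
    intro y hy
    have hy' : y ^ 2 = (x - e1) * (x - e2) * (x - e3) := hy
    rw [Finset.mem_coe, Multiset.mem_toFinset, Polynomial.mem_roots h1]
    simp [Polynomial.IsRoot, hy']
  have hS : (⋃ x ∈ {x : L | logHeight₁ x ≤ B}, (fun y => (x, y)) ''
      {y : L | y ^ 2 = (x - e1) * (x - e2) * (x - e3)}).Finite :=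
    hfin.biUnion fun x _ => (hfib x).image _
  let φ : (curve e1 e2 e3).toAffine.Point → Option (L × L) := fun P =>
    match P with
    | .zero => none
    | .some x y _ => some (x, y)
  have hφ : Function.Injective φ := by
    intro P Q h
    match P, Q with
    | .zero, .zero => rfl
    | .zero, .some _ _ _ => exact absurd h (by simp [φ])
    | .some _ _ _, .zero => exact absurd h (by simp [φ])
    | .some x y h1, .some x' y' h2 =>
      simp only [φ, Option.some.injEq, Prod.mk.injEq] at h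
      obtain ⟨rfl, rfl⟩ := h
      rfl
  refine Set.Finite.of_finite_image (f := φ) (((hS.image some).insert none).subset ?_)
    hφ.injOn
  rintro _ ⟨P, hP, rfl⟩
  match P, hP with
  | .zero, _ => exact Or.inl rfl
  | .some x y h, hP =>
    refine Or.inr ⟨(x, y), ?_, rfl⟩
    simp only [Set.mem_iUnion]
    exact ⟨x, hP, y, equation_of h, rfl⟩

/-- The number of points of an elliptic curve with full 2-torsion and logarithmic height at most
`B` is bounded by a power of `B`. -/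
theorem ell_upper (h12 : e1 ≠ e2) (h13 : e1 ≠ e3) (h23 : e2 ≠ e3) :
    ∃ D c : ℝ, 0 < D ∧ 0 < c ∧ ∀ B : ℝ, 1 ≤ B →
      ({P : (curve e1 e2 e3).toAffine.Point | hx P ≤ B}.ncard : ℝ) ≤ D * B ^ c := by
  obtain ⟨A, hA1, hA⟩ := Pool.Agent.Helper16.A9.ht_add_le (curve e1 e2 e3).toAffine
  obtain ⟨c, hc1, hc⟩ := ht_le_hx (e1 := e1) (e2 := e2) (e3 := e3)
  obtain ⟨k, hk⟩ : ∃ k : ℕ, 2 * (A * c) ≤ (4 : ℝ) ^ k := by
    obtain ⟨k, hk⟩ := pow_unbounded_of_one_lt (2 * (A * c)) (show (1 : ℝ) < 4 by norm_num)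
    exact ⟨k, hk.le⟩
  obtain ⟨C₁, hC₁, hpow⟩ := hx_pow h12 h13 h23 k
  obtain ⟨R, hR, hRn, hrep⟩ := reps h12 h13 h23 k
  obtain ⟨M, hM⟩ : ∃ M : ℝ, ∀ Q ∈ R, Pool.Agent.Helper16.A9.ht (-Q) ≤ M := by
    obtain ⟨M, hM⟩ := (hR.image (fun Q => Pool.Agent.Helper16.A9.ht (-Q))).bddAbove
    exact ⟨M, fun Q hQ => hM ⟨Q, hQ, rfl⟩⟩
  have hM0 : 0 ≤ M := by
    obtain ⟨Q, hQ⟩ := hRn
    exact (Pool.Agent.Helper16.A9.ht_nonneg _).trans (hM Q hQ)
  set C : ℝ := C₁ + A * (c + M + 1) with hC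
  have hC0 : 0 ≤ C := by positivity
  have h4k : (1 : ℝ) ≤ 4 ^ k := one_le_pow₀ (by norm_num)
  -- contraction
  have hcon : ∀ P P' Q, Q ∈ R → P = (2 ^ k : ℕ) • P' + Q → hx P' ≤ hx P / 2 + C := by
    intro P P' Q hQ hP
    have h1 := hpow P'
    have e : (2 ^ k : ℕ) • P' = P + (-Q) := by rw [hP]; abel
    rw [e] at h1
    have h2 := hx_le_ht (P + (-Q))
    have h3 := hA P (-Q)
    have h4 := hc P
    have h5 := hM Q hQ
    have h6 := hx_nonneg P
    have h7 := hx_nonneg P'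
    have h8 : A * (Pool.Agent.Helper16.A9.ht P + Pool.Agent.Helper16.A9.ht (-Q) + 1) ≤
        A * (c * (hx P + 1) + M + 1) := by gcongr
    have h9 : (4 : ℝ) ^ k * hx P' ≤ A * c * hx P + C := by
      rw [hC]
      nlinarith
    have h10 : A * c * hx P ≤ (4 : ℝ) ^ k * (hx P / 2) := by nlinarith
    have h11 : C ≤ (4 : ℝ) ^ k * C := by nlinarith
    have h12 : (4 : ℝ) ^ k * hx P' ≤ (4 : ℝ) ^ k * (hx P / 2 + C) := by nlinarith
    exact le_of_mul_le_mul_left h12 (by positivity)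
  have hfin := finite_sublevel (e1 := e1) (e2 := e2) (e3 := e3)
  refine tree_growth (N := fun B => ({P : (curve e1 e2 e3).toAffine.Point | hx P ≤ B}.ncard : ℝ))
    ?_ (fun B => by positivity) (r := R.ncard) (C := C) ?_ hC0 ?_
  · intro B B' hBB
    show ((({P : (curve e1 e2 e3).toAffine.Point | hx P ≤ B}).ncard : ℕ) : ℝ) ≤
      ((({P : (curve e1 e2 e3).toAffine.Point | hx P ≤ B'}).ncard : ℕ) : ℝ)
    exact Nat.cast_le.mpr (Set.ncard_le_ncard (fun P (hP : hx P ≤ B) => le_trans hP hBB) (hfin B'))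
  · have : 0 < R.ncard := (Set.ncard_pos hR).mpr hRn
    exact_mod_cast this
  · intro B
    have hsub : {P : (curve e1 e2 e3).toAffine.Point | hx P ≤ B} ⊆
        (fun r : (curve e1 e2 e3).toAffine.Point × (curve e1 e2 e3).toAffine.Point =>
          (2 ^ k : ℕ) • r.2 + r.1) ''
          (R ×ˢ {P : (curve e1 e2 e3).toAffine.Point | hx P ≤ B / 2 + C}) := by
      intro P hP
      obtain ⟨Q, hQ, P', hP'⟩ := hrep P
      refine ⟨(Q, P'), ⟨hQ, ?_⟩, hP'.symm⟩
      have h1 := hcon P P' Q hQ hP'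
      have hP2 : hx P ≤ B := hP
      show hx P' ≤ B / 2 + C
      linarith
    have h1 := Set.ncard_le_ncard hsub ((hR.prod (hfin _)).image _)
    have h2 := Set.ncard_image_le (f := fun r : (curve e1 e2 e3).toAffine.Point ×
      (curve e1 e2 e3).toAffine.Point => (2 ^ k : ℕ) • r.2 + r.1) (hR.prod (hfin (B / 2 + C)))
    rw [Set.ncard_prod] at h2
    exact_mod_cast h1.trans h2

end

end Pool.Agent.Helper3.A9
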