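import Pool.Agent.Helper3.A9.Sel
import Pool.Agent.Helper72.TD.Descent
import Pool.Agent.Helper72.TD.Halving

/-!
# Weak Mordell-Weil over a number field for curves with full 2-torsion
-/

set_option autoImplicit false

namespace Pool.Agent.Helper3.A9

open IsDedekindDomain NumberField WithZero
open Pool.Agent.Helper72.TD

lemma finite_val_ne_one (L : Type) [Field L] [NumberField L] (x : L) (hx : x ≠ 0) :
    {v : HeightOneSpectrum (𝓞 L) | v.valuation L x ≠ 1}.Finite := by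
  have hinj := FaithfulSMul.algebraMap_injective (𝓞 L) L
  obtain ⟨a, b, hb, hab⟩ := IsFractionRing.div_surjective (A := 𝓞 L) x
  have hb0 : b ≠ 0 := nonZeroDivisors.ne_zero hb
  have ha0 : a ≠ 0 := by
    rintro rfl
    rw [map_zero, zero_div] at hab
    exact hx hab.symm
  have hI : Ideal.span {a * b} ≠ (0 : Ideal (𝓞 L)) := by
    rw [Ne, Ideal.zero_eq_bot, Ideal.span_singleton_eq_bot]
    exact mul_ne_zero ha0 hb0
  refine (Ideal.finite_factors hI).subset ?_
  intro v hv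
  by_contra hnd
  apply hv
  have h1 : a * b ∉ v.asIdeal := by
    intro h
    apply hnd
    change v.asIdeal ∣ _
    rw [Ideal.dvd_iff_le, Ideal.span_singleton_le_iff_mem]
    exact h
  have h2 : a ∉ v.asIdeal := fun h' => h1 (v.asIdeal.mul_mem_right _ h')
  have h3 : b ∉ v.asIdeal := fun h' => h1 (v.asIdeal.mul_mem_left _ h')
  have h4 : v.valuation L (algebraMap (𝓞 L) L a) = 1 := by
    rw [HeightOneSpectrum.valuation_of_algebraMap, HeightOneSpectrum.intValuation_eq_one_iff]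
    exact h2
  have h5 : v.valuation L (algebraMap (𝓞 L) L b) = 1 := by
    rw [HeightOneSpectrum.valuation_of_algebraMap, HeightOneSpectrum.intValuation_eq_one_iff]
    exact h3
  rw [← hab, map_div₀, h4, h5, div_one]

theorem weak_mw (L : Type) [Field L] [NumberField L] [DecidableEq L] {e1 e2 e3 : L}
    (h12 : e1 ≠ e2) (h13 : e1 ≠ e3) (h23 : e2 ≠ e3) :
    ∃ R : Set (curve e1 e2 e3).toAffine.Point, R.Finite ∧ R.Nonempty ∧
      ∀ P, ∃ Q ∈ R, ∃ P', P = P' + P' + Q := by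
  have h2 : (2 : L) ≠ 0 := two_ne_zero
  set S : Set (HeightOneSpectrum (𝓞 L)) := {v | v.valuation L (e2 - e1) ≠ 1} ∪
    {v | v.valuation L (e3 - e1) ≠ 1} ∪ {v | v.valuation L (e3 - e2) ≠ 1} with hS
  have hSf : S.Finite :=
    ((finite_val_ne_one L _ (sub_ne_zero.mpr h12.symm)).union
      (finite_val_ne_one L _ (sub_ne_zero.mpr h13.symm))).union
      (finite_val_ne_one L _ (sub_ne_zero.mpr h23.symm))
  obtain ⟨R₀, hR₀, hR₀0, hsel⟩ := sel_finite L S hSf
  -- the class of a point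
  have hcl : ∀ P : (curve e1 e2 e3).toAffine.Point, ∃ r ∈ R₀ ×ˢ R₀, HasClass P r.1 r.2 := by
    intro P
    obtain ⟨d1, d2, hd1, hd2, hP⟩ := hasClass_exists h12 h13 h23 P
    have hpt := (hasPoint_iff h2 h12 h13 h23 hd1 hd2).mpr ⟨P, hP⟩
    have hsym := symPoint_of_hasPoint hd1 hd2 hpt
    simp only [Algebra.algebraMap_self, RingHom.id_apply] at hsym
    have hev : ∀ v ∉ S, EvenAt (v.valuation L) d1 ∧ EvenAt (v.valuation L) d2 := by
      intro v hv
      simp only [hS, Set.mem_union, Set.mem_ofPred_eq, not_or, not_not] at hv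
      obtain ⟨x, y, -⟩ := even_of_good (v.valuation L) hv.1.1 hv.1.2 hv.2 hsym
      exact ⟨x, y⟩
    obtain ⟨r1, hr1, s1, hs1, e1'⟩ := hsel d1 hd1 fun v hv => (hev v hv).1
    obtain ⟨r2, hr2, s2, hs2, e2'⟩ := hsel d2 hd2 fun v hv => (hev v hv).2
    refine ⟨(r1, r2), ⟨hr1, hr2⟩, ?_⟩
    rw [e1', e2'] at hP
    exact (hasClass_mul_sq hs1 hs2).mp hP
  classical
  let rep : L × L → (curve e1 e2 e3).toAffine.Point := fun r =>
    if h : ∃ P : (curve e1 e2 e3).toAffine.Point, HasClass P r.1 r.2 then h.choose else 0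
  refine ⟨(fun r => -rep r) '' (R₀ ×ˢ R₀), (hR₀.prod hR₀).image _, ?_, fun P => ?_⟩
  · obtain ⟨r, hr, -⟩ := hcl 0
    exact ⟨_, r, hr, rfl⟩
  · obtain ⟨r, hr, hP⟩ := hcl P
    have hex : ∃ P : (curve e1 e2 e3).toAffine.Point, HasClass P r.1 r.2 := ⟨P, hP⟩
    have hQ : HasClass (rep r) r.1 r.2 := by
      simp only [rep]
      rw [dif_pos hex]
      exact hex.choose_spec
    have n1 : r.1 ≠ 0 := hR₀0 _ hr.1
    have n2 : r.2 ≠ 0 := hR₀0 _ hr.2
    have hadd := hasClass_add h2 h12 h13 h23 n1 n2 n1 n2 hP hQ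
    have hadd' : HasClass (P + rep r) (1 * r.1 ^ 2) (1 * r.2 ^ 2) := by
      rw [one_mul, one_mul, pow_two, pow_two]
      exact hadd
    rw [hasClass_mul_sq n1 n2] at hadd'
    obtain ⟨P', hP'⟩ := exists_half h2 h12 h13 h23 hadd'
    refine ⟨-rep r, ⟨r, hr, rfl⟩, P', ?_⟩
    rw [← hP']
    abel

end Pool.Agent.Helper3.A9
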